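import Mathlib
import Pool.Agent.H472R3.TreeLen

set_option autoImplicit false

namespace Pool.Agent.H67R3.FSR

open Pool.Agent.H472R3

variable {N : ℕ}

/-- Letters. -/
abbrev Lt (N : ℕ) := Fin N × Bool

def inv' (a : Lt N) : Lt N := (a.1, !a.2)

def lt (a : Lt N) : FreeGroup (Fin N) := FreeGroup.mk [a]

theorem inv'_inv' (a : Lt N) : inv' (inv' a) = a := by
  simp [inv']

theorem lt_inv' (a : Lt N) : lt (inv' a) = (lt a)⁻¹ := by
  simp [lt, inv', FreeGroup.inv_mk, FreeGroup.invRev]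

theorem lt_true (i : Fin N) : lt (i, true) = FreeGroup.of i := rfl

theorem lt_false (i : Fin N) : lt (i, false) = (FreeGroup.of i)⁻¹ := by
  rw [← lt_true, ← lt_inv']
  rfl

/-- A Nielsen move: `a ↦ a b`. -/
def tauHom (a b : Lt N) : FreeGroup (Fin N) →* FreeGroup (Fin N) :=
  FreeGroup.lift fun i => if i = a.1 then
    (if a.2 = true then FreeGroup.of i * lt b else (lt b)⁻¹ * FreeGroup.of i) else FreeGroup.of i

theorem tauHom_self (a b : Lt N) : tauHom a b (lt a) = lt a * lt b := by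
  obtain ⟨i, s⟩ := a
  cases s
  · rw [lt_false, map_inv]
    simp [tauHom]
  · rw [lt_true]
    simp [tauHom]

theorem tauHom_ne (a b c : Lt N) (h : c.1 ≠ a.1) : tauHom a b (lt c) = lt c := by
  obtain ⟨i, s⟩ := c
  simp only at h
  cases s
  · rw [lt_false, map_inv]
    simp [tauHom, h]
  · rw [lt_true]
    simp [tauHom, h]

theorem tauHom_comp (a b : Lt N) (h : b.1 ≠ a.1) :
    (tauHom a (inv' b)).comp (tauHom a b) = MonoidHom.id _ := by
  apply FreeGroup.ext_hom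
  intro i
  rw [← lt_true, MonoidHom.comp_apply, MonoidHom.id_apply]
  by_cases hi : i = a.1
  · have key : (tauHom a (inv' b)) (tauHom a b (lt a)) = lt a := by
      rw [tauHom_self, map_mul, tauHom_self, tauHom_ne _ _ _ h, lt_inv']
      group
    obtain ⟨j, s⟩ := a
    simp only at hi
    subst hi
    cases s
    · rw [lt_false] at key
      rw [map_inv, map_inv, inv_inj] at key
      exact key
    · exact key
  · rw [tauHom_ne _ _ _ hi, tauHom_ne _ _ _ hi]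

def tau (a b : Lt N) (h : b.1 ≠ a.1) : FreeGroup (Fin N) ≃* FreeGroup (Fin N) :=
  MonoidHom.toMulEquiv (tauHom a b) (tauHom a (inv' b)) (tauHom_comp a b h)
    (by
      have := tauHom_comp a (inv' b) (by exact h)
      rwa [inv'_inv'] at this)

theorem tau_self (a b : Lt N) (h : b.1 ≠ a.1) : tau a b h (lt a) = lt a * lt b := tauHom_self a b

theorem tau_ne (a b c : Lt N) (h : b.1 ≠ a.1) (hc : c.1 ≠ a.1) : tau a b h (lt c) = lt c :=
  tauHom_ne a b c hc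

/-- An injective enumeration of the free group. -/
def enc (u : FreeGroup (Fin N)) : ℕ := Encodable.encode u.toWord

theorem enc_inj : Function.Injective (enc : FreeGroup (Fin N) → ℕ) := by
  intro u v h
  exact FreeGroup.toWord_injective (Encodable.encode_injective h)

/-- Gromov product. -/
noncomputable def G (ℓ : LenFn N) (g h : FreeGroup (Fin N)) : ℝ :=
  (ℓ.L g + ℓ.L h - ℓ.L (g⁻¹ * h)) / 2

section

variable (ℓ : LenFn N)

theorem G_comm (g h : FreeGroup (Fin N)) : G ℓ g h = G ℓ h g := by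
  unfold G
  rw [← ℓ.inv (g⁻¹ * h), mul_inv_rev, inv_inv]
  ring

theorem G_um (g h k : FreeGroup (Fin N)) : min (G ℓ g h) (G ℓ h k) ≤ G ℓ g k := ℓ.um g h k

theorem G_self (g : FreeGroup (Fin N)) : G ℓ g g = ℓ.L g := by
  unfold G
  rw [inv_mul_cancel, ℓ.one]
  ring

theorem G_nonneg (g h : FreeGroup (Fin N)) : 0 ≤ G ℓ g h := by
  have := G_um ℓ g 1 h
  have e1 : G ℓ g 1 = 0 := by
    unfold G
    rw [mul_one, ℓ.inv, ℓ.one]
    ring
  have e2 : G ℓ 1 h = 0 := by rw [G_comm]; unfold G; rw [mul_one, ℓ.inv, ℓ.one]; ring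
  rw [e1, e2, min_self] at this
  exact this

theorem L_nonneg (g : FreeGroup (Fin N)) : 0 ≤ ℓ.L g := by
  rw [← G_self]
  exact G_nonneg ℓ g g

theorem tri (g h : FreeGroup (Fin N)) : ℓ.L (g * h) ≤ ℓ.L g + ℓ.L h := by
  have := G_nonneg ℓ g⁻¹ h
  unfold G at this
  rw [inv_inv, ℓ.inv] at this
  linarith

/-- Isosceles. -/
theorem G_iso {g h k : FreeGroup (Fin N)} (h1 : G ℓ g h < G ℓ h k) : G ℓ g k = G ℓ g h := by
  apply le_antisymm
  · by_contra hc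
    have h2 := G_um ℓ g k h
    rw [G_comm ℓ k h] at h2
    have := min_le_iff.mp h2
    rcases this with h3 | h3 <;> linarith [not_le.mp hc]
  · have h2 := G_um ℓ g h k
    rw [min_eq_left h1.le] at h2
    exact h2

/-- The least index of an element going beyond `r` in the direction of `g`. -/
noncomputable def sig (g : FreeGroup (Fin N)) (r : ℝ) : ℕ :=
  sInf {n : ℕ | ∃ u : FreeGroup (Fin N), enc u = n ∧ r < G ℓ u g}

theorem sig_congr {g k : FreeGroup (Fin N)} {r : ℝ} (h : r < G ℓ g k) :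
    sig ℓ g r = sig ℓ k r := by
  unfold sig
  congr 1
  ext n
  simp only [Set.mem_ofPred_eq]
  constructor
  · rintro ⟨u, hu, hr⟩
    exact ⟨u, hu, lt_of_lt_of_le (lt_min hr h) (G_um ℓ u g k)⟩
  · rintro ⟨u, hu, hr⟩
    rw [G_comm] at h
    exact ⟨u, hu, lt_of_lt_of_le (lt_min hr h) (G_um ℓ u k g)⟩

theorem sig_mem {g : FreeGroup (Fin N)} {r : ℝ} (h : r < ℓ.L g) :
    ∃ u : FreeGroup (Fin N), enc u = sig ℓ g r ∧ r < G ℓ u g := by
  have : {n : ℕ | ∃ u : FreeGroup (Fin N), enc u = n ∧ r < G ℓ u g}.Nonempty :=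
    ⟨_, g, rfl, by rw [G_self]; exact h⟩
  exact Nat.sInf_mem this

theorem sig_ne {g k : FreeGroup (Fin N)} (h1 : G ℓ g k < ℓ.L g) (h2 : G ℓ g k < ℓ.L k) :
    sig ℓ g (G ℓ g k) ≠ sig ℓ k (G ℓ g k) := by
  intro he
  obtain ⟨u, hu, hu'⟩ := sig_mem ℓ h1
  obtain ⟨v, hv, hv'⟩ := sig_mem ℓ h2
  have : u = v := enc_inj (by rw [hu, hv, he])
  subst this
  have := G_um ℓ g u k
  rw [G_comm ℓ g u] at this
  have h3 := lt_min hu' hv'
  linarith

/-- `g` precedes `k`. -/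
def less (g k : FreeGroup (Fin N)) : Prop :=
  ℓ.L g = ℓ.L k ∧ G ℓ g k < ℓ.L k / 2 ∧ sig ℓ g (G ℓ g k) < sig ℓ k (G ℓ g k)

theorem less_irrefl (g : FreeGroup (Fin N)) : ¬ less ℓ g g := fun h => lt_irrefl _ h.2.2

theorem less_total {g k : FreeGroup (Fin N)} (h1 : ℓ.L g = ℓ.L k) (h2 : G ℓ g k < ℓ.L k / 2) :
    less ℓ g k ∨ less ℓ k g := by
  have h0 := G_nonneg ℓ g k
  have hne := sig_ne ℓ (g := g) (k := k) (by linarith) (by linarith)
  rcases lt_or_gt_of_ne hne with h | h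
  · exact Or.inl ⟨h1, h2, h⟩
  · right
    refine ⟨h1.symm, ?_, ?_⟩
    · rw [G_comm, h1]; exact h2
    · rw [G_comm]; exact h

theorem less_trans {g k l : FreeGroup (Fin N)} (h1 : less ℓ g k) (h2 : less ℓ k l) :
    less ℓ g l := by
  obtain ⟨a1, a2, a3⟩ := h1
  obtain ⟨b1, b2, b3⟩ := h2
  refine ⟨a1.trans b1, ?_⟩
  rcases lt_trichotomy (G ℓ g k) (G ℓ k l) with h | h | h
  · have e := G_iso ℓ h
    rw [e]
    refine ⟨by linarith, ?_⟩
    rw [← sig_congr ℓ h]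
    exact a3
  · rw [← h] at b3
    have hle : G ℓ g l ≤ G ℓ g k := by
      by_contra hc
      have := sig_congr ℓ (not_le.mp hc)
      omega
    have hge := G_um ℓ g k l
    rw [← h, min_self] at hge
    have e := le_antisymm hle hge
    rw [e]
    exact ⟨by linarith, by omega⟩
  · have e : G ℓ g l = G ℓ k l := by
      rw [G_comm ℓ g l, G_comm ℓ k l]
      apply G_iso
      rw [G_comm ℓ l k, G_comm ℓ k g]
      exact h
    rw [e]
    refine ⟨b2, ?_⟩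
    rw [sig_congr ℓ h]
    exact b3

theorem less_congr {g k u : FreeGroup (Fin N)} (h1 : ℓ.L g = ℓ.L k) (h2 : ℓ.L k / 2 ≤ G ℓ g k)
    (h : less ℓ u g) : less ℓ u k := by
  obtain ⟨a1, a2, a3⟩ := h
  have e : G ℓ u k = G ℓ u g := G_iso ℓ (by linarith)
  refine ⟨a1.trans h1, ?_, ?_⟩
  · rw [e]; linarith
  · rw [e, ← sig_congr ℓ (show G ℓ u g < G ℓ g k by linarith)]
    exact a3

/-- The rank. -/
noncomputable def rk (g : FreeGroup (Fin N)) : ℕ := {u | less ℓ u g}.ncard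

theorem rk_congr {g k : FreeGroup (Fin N)} (h1 : ℓ.L g = ℓ.L k) (h2 : ℓ.L k / 2 ≤ G ℓ g k) :
    rk ℓ g = rk ℓ k := by
  unfold rk
  congr 1
  ext u
  simp only [Set.mem_ofPred_eq]
  refine ⟨less_congr ℓ h1 h2, less_congr ℓ h1.symm ?_⟩
  rw [G_comm, h1]
  exact h2

theorem rk_lt (hfin : ∀ R : ℝ, {g | ℓ.L g ≤ R}.Finite) {g k : FreeGroup (Fin N)}
    (h : less ℓ g k) : rk ℓ g < rk ℓ k := by
  unfold rk
  apply Set.ncard_lt_ncard
  · refine ⟨fun u hu => less_trans ℓ hu h, fun hc => ?_⟩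
    exact less_irrefl ℓ g (hc h)
  · exact (hfin (ℓ.L k)).subset fun u hu => hu.1.le

noncomputable def P2 (φ : FreeGroup (Fin N) ≃* FreeGroup (Fin N)) : ℝ :=
  ∑ c : Lt N, ℓ.L (φ (lt c))

noncomputable def Psi (φ : FreeGroup (Fin N) ≃* FreeGroup (Fin N)) : ℕ :=
  ∑ c : Lt N, rk ℓ (φ (lt c))

theorem equiv_ext {φ ψ : FreeGroup (Fin N) ≃* FreeGroup (Fin N)}
    (h : ∀ c : Lt N, φ (lt c) = ψ (lt c)) : φ = ψ := by
  have : (φ : FreeGroup (Fin N) →* FreeGroup (Fin N)) = ψ := by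
    apply FreeGroup.ext_hom
    intro i
    have := h (i, true)
    rw [lt_true] at this
    exact this
  ext x
  exact DFunLike.congr_fun this x

theorem exists_min (hfin : ∀ R : ℝ, {g | ℓ.L g ≤ R}.Finite) :
    ∃ φ : FreeGroup (Fin N) ≃* FreeGroup (Fin N), (∀ ψ, P2 ℓ φ ≤ P2 ℓ ψ) ∧
      ∀ ψ, P2 ℓ ψ = P2 ℓ φ → Psi ℓ φ ≤ Psi ℓ ψ := by
  set e : FreeGroup (Fin N) ≃* FreeGroup (Fin N) := MulEquiv.refl _
  have hS : {ψ : FreeGroup (Fin N) ≃* FreeGroup (Fin N) | P2 ℓ ψ ≤ P2 ℓ e}.Finite := by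
    have hpi : (Set.univ.pi fun _ : Lt N => {g | ℓ.L g ≤ P2 ℓ e}).Finite :=
      Set.Finite.pi fun _ => hfin _
    apply Set.Finite.of_injOn (f := fun ψ (c : Lt N) => ψ (lt c)) _ _ hpi
    · intro ψ hψ c _
      simp only [Set.mem_ofPred_eq] at hψ ⊢
      refine le_trans ?_ hψ
      exact Finset.single_le_sum (f := fun c => ℓ.L (ψ (lt c)))
        (fun i _ => L_nonneg ℓ _) (Finset.mem_univ c)
    · intro ψ _ ψ' _ h
      exact equiv_ext fun c => congrFun h c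
  obtain ⟨φ0, h0, h1⟩ := Set.exists_min_image _ (P2 ℓ) hS ⟨e, by
    simp only [Set.mem_ofPred_eq]; exact le_rfl⟩
  have h2 : ∀ ψ, P2 ℓ φ0 ≤ P2 ℓ ψ := by
    intro ψ
    simp only [Set.mem_ofPred_eq] at h0 h1
    by_cases h : P2 ℓ ψ ≤ P2 ℓ e
    · exact h1 ψ h
    · exact le_trans h0 (not_le.mp h).le
  have hM : {n : ℕ | ∃ ψ, P2 ℓ ψ = P2 ℓ φ0 ∧ Psi ℓ ψ = n}.Nonempty := ⟨_, φ0, rfl, rfl⟩
  obtain ⟨φ, hφ, hφ'⟩ := Nat.sInf_mem hM
  refine ⟨φ, fun ψ => hφ ▸ h2 ψ, fun ψ hψ => ?_⟩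
  rw [hφ']
  exact Nat.sInf_le ⟨ψ, hψ.trans hφ, rfl⟩

theorem sum_split {M : Type} [AddCommMonoid M] (a : Lt N) (f : Lt N → M) :
    ∑ c, f c = f a + f (inv' a) + ∑ c ∈ Finset.univ.filter (fun c : Lt N => c.1 ≠ a.1), f c := by
  rw [← Finset.sum_filter_add_sum_filter_not Finset.univ (fun c : Lt N => c.1 ≠ a.1), add_comm]
  congr 1
  have : Finset.univ.filter (fun c : Lt N => ¬ c.1 ≠ a.1) = {a, inv' a} := by
    ext c
    obtain ⟨i, s⟩ := a
    obtain ⟨j, t⟩ := c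
    simp only [not_not, Finset.mem_filter, Finset.mem_univ, true_and, Finset.mem_insert,
      Prod.mk.injEq, Finset.mem_singleton, inv']
    cases s <;> cases t <;> simp
  rw [this, Finset.sum_pair]
  intro h
  have := congrArg Prod.snd h
  simp [inv'] at this

theorem inv'_fst (a : Lt N) : (inv' a).1 = a.1 := rfl

section min

variable {ℓ} {φ : FreeGroup (Fin N) ≃* FreeGroup (Fin N)}

theorem move_self (a b : Lt N) (h : b.1 ≠ a.1) :
    ((tau a b h).trans φ) (lt a) = φ (lt a) * φ (lt b) := by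
  rw [MulEquiv.trans_apply, tau_self, map_mul]

theorem move_inv (a b : Lt N) (h : b.1 ≠ a.1) :
    ((tau a b h).trans φ) (lt (inv' a)) = (φ (lt a) * φ (lt b))⁻¹ := by
  rw [lt_inv', map_inv, move_self]

theorem move_ne (a b c : Lt N) (h : b.1 ≠ a.1) (hc : c.1 ≠ a.1) :
    ((tau a b h).trans φ) (lt c) = φ (lt c) := by
  rw [MulEquiv.trans_apply, tau_ne a b c h hc]

theorem P2_move (a b : Lt N) (h : b.1 ≠ a.1) :
    P2 ℓ ((tau a b h).trans φ) = P2 ℓ φ + 2 * (ℓ.L (φ (lt a) * φ (lt b)) - ℓ.L (φ (lt a))) := by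
  unfold P2
  rw [sum_split a, sum_split a (fun c => ℓ.L (φ (lt c)))]
  have : ∑ c ∈ Finset.univ.filter (fun c : Lt N => c.1 ≠ a.1),
      ℓ.L (((tau a b h).trans φ) (lt c)) =
      ∑ c ∈ Finset.univ.filter (fun c : Lt N => c.1 ≠ a.1), ℓ.L (φ (lt c)) := by
    apply Finset.sum_congr rfl
    intro c hc
    rw [move_ne a b c h (Finset.mem_filter.mp hc).2]
  rw [this, move_self, move_inv, ℓ.inv, lt_inv', map_inv, ℓ.inv]
  ring

theorem le_move (hmin : ∀ ψ, P2 ℓ φ ≤ P2 ℓ ψ) (a b : Lt N) (h : b.1 ≠ a.1) :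
    ℓ.L (φ (lt a)) ≤ ℓ.L (φ (lt a) * φ (lt b)) := by
  have := hmin ((tau a b h).trans φ)
  rw [P2_move] at this
  linarith

theorem tie_not_less (hmin : ∀ ψ, P2 ℓ φ ≤ P2 ℓ ψ)
    (hfin : ∀ R : ℝ, {g | ℓ.L g ≤ R}.Finite)
    (hmin2 : ∀ ψ, P2 ℓ ψ = P2 ℓ φ → Psi ℓ φ ≤ Psi ℓ ψ) (a b : Lt N) (h : b.1 ≠ a.1)
    (htie : ℓ.L (φ (lt a) * φ (lt b)) = ℓ.L (φ (lt a))) :
    ¬ less ℓ (φ (lt b))⁻¹ (φ (lt b)) := by
  intro hless
  set x := φ (lt a) with hx
  set y := φ (lt b) with hy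
  have hLyx : ℓ.L y ≤ ℓ.L x := by
    have := le_move hmin (inv' b) (inv' a) (by rw [inv'_fst, inv'_fst]; exact h.symm)
    rw [lt_inv', lt_inv', map_inv, map_inv, ← hx, ← hy, ℓ.inv, ← mul_inv_rev, ℓ.inv, htie] at this
    exact this
  have hP : P2 ℓ ((tau a b h).trans φ) = P2 ℓ φ := by
    rw [P2_move, ← hx, ← hy, htie]
    ring
  have hPsi := hmin2 _ hP
  -- compare the ranks
  have e1 : rk ℓ (x * y) = rk ℓ x := by
    apply rk_congr ℓ htie
    rw [G_comm]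
    unfold G
    rw [show x⁻¹ * (x * y) = y by group, htie]
    linarith
  have hr : G ℓ y⁻¹ y < ℓ.L y / 2 := hless.2.1
  have g1 : G ℓ x⁻¹ y = ℓ.L y / 2 := by
    unfold G
    rw [inv_inv, ℓ.inv, htie]
    ring
  have g2 : G ℓ (x * y)⁻¹ y⁻¹ = ℓ.L y / 2 := by
    unfold G
    rw [inv_inv, ℓ.inv, ℓ.inv, htie, show x * y * y⁻¹ = x by group]
    ring
  have g3 : G ℓ (x * y)⁻¹ y = G ℓ y⁻¹ y := by
    have : G ℓ y y⁻¹ < G ℓ y⁻¹ (x * y)⁻¹ := by
      rw [G_comm ℓ y, G_comm ℓ _ (x * y)⁻¹, g2]; exact hr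
    have := G_iso ℓ this
    rw [G_comm ℓ (x * y)⁻¹, this, G_comm]
  have g4 : G ℓ (x * y)⁻¹ x⁻¹ = G ℓ y⁻¹ y := by
    have : G ℓ (x * y)⁻¹ y < G ℓ y x⁻¹ := by
      rw [g3, G_comm ℓ y x⁻¹, g1]; exact hr
    rw [G_iso ℓ this, g3]
  have e2 : less ℓ (x * y)⁻¹ x⁻¹ := by
    refine ⟨by rw [ℓ.inv, ℓ.inv, htie], ?_, ?_⟩
    · rw [g4, ℓ.inv]; linarith
    · rw [g4]
      rw [sig_congr ℓ (show G ℓ y⁻¹ y < G ℓ (x * y)⁻¹ y⁻¹ by rw [g2]; exact hr),
        sig_congr ℓ (show G ℓ y⁻¹ y < G ℓ x⁻¹ y by rw [g1]; exact hr)]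
      exact hless.2.2
  have e3 := rk_lt ℓ hfin e2
  unfold Psi at hPsi
  rw [sum_split a, sum_split a (fun c => rk ℓ (((tau a b h).trans φ) (lt c)))] at hPsi
  have e4 : ∑ c ∈ Finset.univ.filter (fun c : Lt N => c.1 ≠ a.1),
      rk ℓ (((tau a b h).trans φ) (lt c)) =
      ∑ c ∈ Finset.univ.filter (fun c : Lt N => c.1 ≠ a.1), rk ℓ (φ (lt c)) := by
    apply Finset.sum_congr rfl
    intro c hc
    rw [move_ne a b c h (Finset.mem_filter.mp hc).2]
  rw [e4, move_self, move_inv, lt_inv', map_inv, ← hx, ← hy, e1] at hPsi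
  omega

end min

theorem nielsen (hhyp : ∀ g, g ≠ 1 → ℓ.L g < ℓ.L (g * g))
    (hfin : ∀ R : ℝ, {g | ℓ.L g ≤ R}.Finite) :
    ∃ φ : FreeGroup (Fin N) ≃* FreeGroup (Fin N), ∀ a b d : Lt N, b ≠ inv' a → d ≠ inv' b →
      G ℓ (φ (lt a))⁻¹ (φ (lt b)) + G ℓ (φ (lt b))⁻¹ (φ (lt d)) < ℓ.L (φ (lt b)) := by
  obtain ⟨φ, hmin, hmin2⟩ := exists_min ℓ hfin
  refine ⟨φ, fun a b d hab hbd => ?_⟩
  have hne : ∀ b : Lt N, φ (lt b) ≠ 1 := by
    intro b hb
    rw [map_eq_one_iff φ φ.injective] at hb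
    have : (lt b).toWord = [] := by rw [hb, FreeGroup.toWord_one]
    rw [lt, FreeGroup.toWord_mk, FreeGroup.reduce_singleton] at this
    simp at this
  have hself : ∀ b : Lt N, G ℓ (φ (lt b))⁻¹ (φ (lt b)) < ℓ.L (φ (lt b)) / 2 := by
    intro b
    unfold G
    rw [inv_inv, ℓ.inv]
    have := hhyp _ (hne b)
    linarith
  have hcase : ∀ a b : Lt N, b ≠ inv' a → a.1 = b.1 → a = b := by
    rintro ⟨i, s⟩ ⟨j, t⟩ h1 h2
    simp only [inv', ne_eq, Prod.mk.injEq, not_and] at h1 h2 ⊢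
    subst h2
    refine ⟨rfl, ?_⟩
    have := h1 rfl
    cases s <;> cases t <;> simp_all
  have hG : ∀ a b : Lt N, G ℓ (φ (lt a))⁻¹ (φ (lt b)) =
      (ℓ.L (φ (lt a)) + ℓ.L (φ (lt b)) - ℓ.L (φ (lt a) * φ (lt b))) / 2 := by
    intro a b
    unfold G
    rw [inv_inv, ℓ.inv]
  -- the first product
  rcases eq_or_ne a.1 b.1 with h1 | h1
  · have := hcase a b hab h1
    subst this
    have s1 := hself a
    rcases eq_or_ne a.1 d.1 with h2 | h2
    · have := hcase a d hbd h2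
      subst this
      linarith
    · have s2 := le_move hmin (inv' d) (inv' a) (by rw [inv'_fst, inv'_fst]; exact h2)
      rw [lt_inv', lt_inv', map_inv, map_inv, ℓ.inv, ← mul_inv_rev, ℓ.inv] at s2
      rw [hG a d]
      linarith
  · have s1 := le_move hmin a b h1.symm
    rcases eq_or_ne b.1 d.1 with h2 | h2
    · have := hcase b d hbd h2
      subst this
      have s2 := hself b
      rw [hG a b]
      linarith
    · have s2 := le_move hmin (inv' d) (inv' b) (by rw [inv'_fst, inv'_fst]; exact h2)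
      rw [lt_inv', lt_inv', map_inv, map_inv, ℓ.inv, ← mul_inv_rev, ℓ.inv] at s2
      by_contra hc
      rw [hG a b, hG b d] at hc
      have t1 : ℓ.L (φ (lt a) * φ (lt b)) = ℓ.L (φ (lt a)) := by linarith
      have t2 : ℓ.L (φ (lt b) * φ (lt d)) = ℓ.L (φ (lt d)) := by linarith
      have n1 := tie_not_less hmin hfin hmin2 a b h1.symm t1
      have n2 := tie_not_less hmin hfin hmin2 (inv' d) (inv' b)
        (by rw [inv'_fst, inv'_fst]; exact h2) (by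
          rw [lt_inv', lt_inv', map_inv, map_inv, ← mul_inv_rev, ℓ.inv, ℓ.inv]
          exact t2)
      rw [lt_inv', map_inv, inv_inv] at n2
      rcases less_total ℓ (g := (φ (lt b))⁻¹) (k := φ (lt b)) (ℓ.inv _) (hself b) with h | h
      · exact n1 h
      · exact n2 h

end

end Pool.Agent.H67R3.FSR
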