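import Mathlib
import Pool.Agent.H67R3.FSR.Nielsen

set_option autoImplicit false

/-!
# The boundary of the free group, geodesic currents
-/

namespace Pool.Agent.H67R3.FSR

open MeasureTheory

/-- The boundary of the free group of rank `N`, i.e. the space of ends of its Cayley tree (vertices
are the group elements, the edge with label `a` leads from `v` to `v * lt a`). An end is encoded by
the function which assigns to each vertex `v` the label of the first edge of the ray from `v` to the
end. The condition says that every edge is crossed in exactly one direction by these rays. -/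
def Bd (N : ℕ) : Type :=
  {ξ : FreeGroup (Fin N) → Lt N // ∀ (v : FreeGroup (Fin N)) (a : Lt N),
    ξ (v * lt a) = inv' a ↔ ξ v ≠ a}

variable {N : ℕ}

/-- The topology of pointwise convergence, from the product of discrete spaces. -/
instance : TopologicalSpace (Bd N) := instTopologicalSpaceSubtype

/-- The action by left multiplication. -/
instance : MulAction (FreeGroup (Fin N)) (Bd N) where
  smul g ξ := ⟨fun v => ξ.1 (g⁻¹ * v), fun v a => by
    have h := ξ.2 (g⁻¹ * v) a
    rw [mul_assoc] at h
    exact h⟩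
  one_smul ξ := by
    apply Subtype.ext
    funext v
    change ξ.1 (1⁻¹ * v) = ξ.1 v
    rw [inv_one, one_mul]
  mul_smul g h ξ := by
    apply Subtype.ext
    funext v
    change ξ.1 ((g * h)⁻¹ * v) = ξ.1 (h⁻¹ * (g⁻¹ * v))
    rw [mul_inv_rev, mul_assoc]

theorem Bd.smul_apply (g : FreeGroup (Fin N)) (ξ : Bd N) (v : FreeGroup (Fin N)) :
    (g • ξ).1 v = ξ.1 (g⁻¹ * v) := rfl

/-- Ordered pairs of distinct points of the boundary. -/
def Bd2 (N : ℕ) : Type := {q : Bd N × Bd N // q.1 ≠ q.2}

instance : TopologicalSpace (Bd2 N) := instTopologicalSpaceSubtype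

instance : MeasurableSpace (Bd2 N) := borel (Bd2 N)

instance : BorelSpace (Bd2 N) := ⟨rfl⟩

/-- The diagonal action. -/
instance : MulAction (FreeGroup (Fin N)) (Bd2 N) where
  smul g q := ⟨(g • q.1.1, g • q.1.2), fun h => q.2 (MulAction.injective g h)⟩
  one_smul q := by
    apply Subtype.ext
    exact Prod.ext (one_smul _ _) (one_smul _ _)
  mul_smul g h q := by
    apply Subtype.ext
    exact Prod.ext (mul_smul _ _ _) (mul_smul _ _ _)

/-- The flip. -/
def flip2 (q : Bd2 N) : Bd2 N := ⟨(q.1.2, q.1.1), fun h => q.2 h.symm⟩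

theorem smul_fst (g : FreeGroup (Fin N)) (q : Bd2 N) : (g • q).1.1 = g • q.1.1 := rfl

theorem smul_snd (g : FreeGroup (Fin N)) (q : Bd2 N) : (g • q).1.2 = g • q.1.2 := rfl

instance : T2Space (Bd N) := inferInstanceAs (T2Space {ξ : FreeGroup (Fin N) → Lt N //
  ∀ (v : FreeGroup (Fin N)) (a : Lt N), ξ (v * lt a) = inv' a ↔ ξ v ≠ a})

instance : T2Space (Bd2 N) := inferInstanceAs (T2Space {q : Bd N × Bd N // q.1 ≠ q.2})

theorem continuous_eval (v : FreeGroup (Fin N)) : Continuous fun ξ : Bd N => ξ.1 v :=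
  (continuous_apply v).comp continuous_subtype_val

theorem continuous_smul_bd (g : FreeGroup (Fin N)) : Continuous fun ξ : Bd N => g • ξ := by
  apply Continuous.subtype_mk
  exact continuous_pi fun v => continuous_eval _

theorem continuous_smul_bd2 (g : FreeGroup (Fin N)) : Continuous fun q : Bd2 N => g • q := by
  apply Continuous.subtype_mk
  exact ((continuous_smul_bd g).comp (continuous_fst.comp continuous_subtype_val)).prodMk
    ((continuous_smul_bd g).comp (continuous_snd.comp continuous_subtype_val))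

theorem continuous_flip2 : Continuous (flip2 : Bd2 N → Bd2 N) := by
  apply Continuous.subtype_mk
  exact (continuous_snd.comp continuous_subtype_val).prodMk
    (continuous_fst.comp continuous_subtype_val)

/-- The pairs whose geodesic passes through the vertex `v`. -/
def U (v : FreeGroup (Fin N)) : Set (Bd2 N) := {q | q.1.1.1 v ≠ q.1.2.1 v}

theorem mem_U (v : FreeGroup (Fin N)) (q : Bd2 N) : q ∈ U v ↔ q.1.1.1 v ≠ q.1.2.1 v := Iff.rfl

theorem isOpen_U (v : FreeGroup (Fin N)) : IsOpen (U v : Set (Bd2 N)) := by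
  have h1 : Continuous fun q : Bd2 N => q.1.1.1 v :=
    (continuous_eval v).comp (continuous_fst.comp continuous_subtype_val)
  have h2 : Continuous fun q : Bd2 N => q.1.2.1 v :=
    (continuous_eval v).comp (continuous_snd.comp continuous_subtype_val)
  exact isOpen_ne_fun h1 h2

theorem exists_mem_U (q : Bd2 N) : ∃ v, q ∈ U v := by
  by_contra hc
  push Not at hc
  apply q.2
  apply Subtype.ext
  funext v
  by_contra h
  exact hc v h

theorem smul_mem_U (g v : FreeGroup (Fin N)) (q : Bd2 N) : g • q ∈ U (g * v) ↔ q ∈ U v := by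
  rw [mem_U, mem_U, smul_fst, smul_snd, Bd.smul_apply, Bd.smul_apply, inv_mul_cancel_left]

/-- Following a reduced path which does not start towards the end. -/
theorem follow (ξ : Bd N) : ∀ (l : List (Lt N)) (a : Lt N) (v : FreeGroup (Fin N)),
    FreeGroup.IsReduced (a :: l) → ξ.1 v ≠ a →
      ξ.1 (v * FreeGroup.mk (a :: l)) = inv' ((a :: l).getLast (by simp))
  | [], a, v, _, h => by
    simp only [List.getLast_singleton]
    exact (ξ.2 v a).mpr h
  | b :: l, a, v, hr, h => by
    unfold FreeGroup.IsReduced at hr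
    rw [List.isChain_cons_cons] at hr
    have h1 : ξ.1 (v * lt a) = inv' a := (ξ.2 v a).mpr h
    have h2 : ξ.1 (v * lt a) ≠ b := by
      rw [h1]
      rintro rfl
      have := hr.1 rfl
      simp [inv'] at this
    have := follow ξ l b (v * lt a) hr.2 h2
    have e : (FreeGroup.mk (a :: b :: l) : FreeGroup (Fin N)) = lt a * FreeGroup.mk (b :: l) := by
      rw [lt, FreeGroup.mul_mk]
      rfl
    rw [e, ← mul_assoc, this, List.getLast_cons_cons]

theorem reduced_iff {a b : Lt N} : (a.1 = b.1 → a.2 = b.2) ↔ b ≠ inv' a := by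
  obtain ⟨i, s⟩ := a
  obtain ⟨j, t⟩ := b
  simp only [inv', ne_eq, Prod.mk.injEq, not_and]
  cases s <;> cases t <;> simp <;> constructor <;> intro h h' <;> exact h h'.symm

/-- The first letter of a product survives if the second factor is shorter. -/
theorem head_append : ∀ (L2 L1 : List (Lt N)), FreeGroup.IsReduced L1 → FreeGroup.IsReduced L2 →
    L2.length < L1.length → (FreeGroup.reduce (L1 ++ L2)).head? = L1.head?
  | [], L1, h1, _, _ => by rw [List.append_nil, h1.reduce_eq]
  | b :: L2, L1, h1, h2, hlen => by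
    rcases List.eq_nil_or_concat L1 with h | ⟨L, c, h⟩
    · rw [h] at hlen
      simp at hlen
    · rw [List.concat_eq_append] at h
      subst h
      by_cases hc : b = inv' c
      · have e : FreeGroup.reduce (L ++ [c] ++ b :: L2) = FreeGroup.reduce (L ++ L2) := by
          rw [← FreeGroup.toWord_mk, ← FreeGroup.toWord_mk]
          congr 1
          have e1 : (FreeGroup.mk (L ++ [c] ++ b :: L2) : FreeGroup (Fin N)) =
              FreeGroup.mk L * lt c * (lt b * FreeGroup.mk L2) := by
            rw [lt, lt, FreeGroup.mul_mk, FreeGroup.mul_mk, FreeGroup.mul_mk]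
            rfl
          rw [e1, hc, lt_inv', ← FreeGroup.mul_mk]
          group
        rw [e]
        have hL : FreeGroup.IsReduced L := by
          unfold FreeGroup.IsReduced at h1 ⊢
          exact (List.isChain_append.mp h1).1
        have hL2 : FreeGroup.IsReduced L2 := by
          unfold FreeGroup.IsReduced at h2 ⊢
          exact h2.tail
        have hlen' : L2.length < L.length := by
          simp only [List.length_cons, List.length_append, List.length_nil] at hlen
          omega
        rw [head_append L2 L hL hL2 hlen']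
        match L, hlen' with
        | x :: L, _ => rfl
      · have hr : FreeGroup.IsReduced (L ++ [c] ++ b :: L2) := by
          unfold FreeGroup.IsReduced at h1 h2 ⊢
          rw [List.isChain_append]
          refine ⟨h1, h2, ?_⟩
          intro x hx y hy
          simp only [List.getLast?_append, List.getLast?_singleton, Option.some_or,
            Option.mem_def, Option.some.injEq, List.head?_cons] at hx hy
          subst hx
          subst hy
          exact reduced_iff.mpr hc
        rw [hr.reduce_eq]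
        match L with
        | [] => rfl
        | x :: L => rfl

theorem norm_pow_of_cyc {h : FreeGroup (Fin N)} (hc : FreeGroup.IsCyclicallyReduced h.toWord)
    (n : ℕ) : (h ^ n).toWord = (List.replicate n h.toWord).flatten := by
  rw [FreeGroup.toWord_pow]
  exact (hc.flatten_replicate n).isReduced.reduce_eq

/-- Far back along the axis, every point is seen in the direction of the axis. -/
theorem exists_back {h : FreeGroup (Fin N)} (hc : FreeGroup.IsCyclicallyReduced h.toWord)
    {a : Lt N} {l : List (Lt N)} (hw : h.toWord = a :: l) (v : FreeGroup (Fin N)) :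
    ∃ (k : ℕ) (m : List (Lt N)), (h ^ k * v).toWord = a :: m := by
  set k := v.toWord.length + 1 with hk
  have h1 := norm_pow_of_cyc hc k
  have hlen : v.toWord.length < (h ^ k).toWord.length := by
    rw [h1, List.length_flatten, List.map_replicate, List.sum_replicate, smul_eq_mul, hw,
      List.length_cons]
    nlinarith [Nat.zero_le (v.toWord.length * l.length)]
  have h2 := head_append v.toWord (h ^ k).toWord FreeGroup.isReduced_toWord
    FreeGroup.isReduced_toWord hlen
  rw [← FreeGroup.toWord_mul] at h2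
  have h3 : (h ^ k).toWord.head? = some a := by
    rw [h1, hk, List.replicate_succ, List.flatten_cons, hw]
    rfl
  rw [h3] at h2
  refine ⟨k, (h ^ k * v).toWord.tail, ?_⟩
  exact (List.head?_eq_some_iff.mp h2).elim fun w hw => by rw [hw]; rfl

theorem fixed_mul {h : FreeGroup (Fin N)} {ξ : Bd N} (hf : h • ξ = ξ) (v : FreeGroup (Fin N)) :
    ξ.1 (h * v) = ξ.1 v := by
  have : (h • ξ).1 (h * v) = ξ.1 v := by rw [Bd.smul_apply, inv_mul_cancel_left]
  rw [hf] at this
  exact this

theorem fixed_pow {h : FreeGroup (Fin N)} {ξ : Bd N} (hf : h • ξ = ξ) (k : ℕ)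
    (v : FreeGroup (Fin N)) : ξ.1 (h ^ k * v) = ξ.1 v := by
  induction k with
  | zero => rw [pow_zero, one_mul]
  | succ k ih => rw [pow_succ', mul_assoc, fixed_mul hf, ih]

theorem fixed_unique {h : FreeGroup (Fin N)} (hc : FreeGroup.IsCyclicallyReduced h.toWord)
    {a : Lt N} {l : List (Lt N)} (hw : h.toWord = a :: l) {ξ ζ : Bd N}
    (h1 : h • ξ = ξ) (h2 : h • ζ = ζ) (h3 : ξ.1 1 ≠ a) (h4 : ζ.1 1 ≠ a) : ξ = ζ := by
  apply Subtype.ext
  funext v
  obtain ⟨k, m, hm⟩ := exists_back hc hw v
  have hr : FreeGroup.IsReduced (a :: m) := by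
    rw [← hm]
    exact FreeGroup.isReduced_toWord
  have e : FreeGroup.mk (a :: m) = h ^ k * v := by
    rw [← hm, FreeGroup.mk_toWord]
  have f1 := follow ξ m a 1 hr h3
  have f2 := follow ζ m a 1 hr h4
  rw [one_mul, e, fixed_pow h1] at f1
  rw [one_mul, e, fixed_pow h2] at f2
  rw [f1, f2]

theorem fixed_one {h : FreeGroup (Fin N)} {a : Lt N} {l : List (Lt N)} (hw : h.toWord = a :: l)
    {ξ : Bd N} (h1 : h • ξ = ξ) (h3 : ξ.1 1 ≠ a) :
    ξ.1 1 = inv' ((a :: l).getLast (by simp)) := by
  have hr : FreeGroup.IsReduced (a :: l) := by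
    rw [← hw]
    exact FreeGroup.isReduced_toWord
  have e : FreeGroup.mk (a :: l) = h := by
    rw [← hw, FreeGroup.mk_toWord]
  have f1 := follow ξ l a 1 hr h3
  rw [one_mul, e] at f1
  have := fixed_mul h1 1
  rw [mul_one] at this
  rw [← this, f1]

theorem exists_cons {h : FreeGroup (Fin N)} (hne : h ≠ 1) : ∃ a l, h.toWord = a :: l := by
  match hw : h.toWord with
  | [] => exact absurd (FreeGroup.toWord_eq_nil_iff.mp hw) hne
  | a :: l => exact ⟨a, l, rfl⟩

theorem cyc_of_fixed {h : FreeGroup (Fin N)} {a : Lt N} {l : List (Lt N)}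
    (hw : h.toWord = a :: l) {ξ ζ : Bd N} (h1 : h • ξ = ξ) (h2 : h • ζ = ζ)
    (h3 : ξ.1 1 ≠ ζ.1 1) : FreeGroup.IsCyclicallyReduced h.toWord := by
  have hne : a ≠ inv' ((a :: l).getLast (by simp)) := by
    intro he
    by_cases hx : ξ.1 1 = a
    · have hz : ζ.1 1 ≠ a := by rw [← hx]; exact h3.symm
      have := fixed_one hw h2 hz
      rw [← he] at this
      exact hz this
    · have := fixed_one hw h1 hx
      rw [← he] at this
      exact hx this
  refine ⟨FreeGroup.isReduced_toWord, ?_⟩
  intro x hx y hy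
  rw [hw] at hx hy
  simp only [List.head?_cons, Option.mem_def, Option.some.injEq] at hy
  subst hy
  rw [List.getLast?_eq_getLast_of_ne_nil (by simp)] at hx
  simp only [Option.mem_def, Option.some.injEq] at hx
  subst hx
  rw [reduced_iff]
  exact hne

theorem toWord_inv_cons {h : FreeGroup (Fin N)} {a : Lt N} {l : List (Lt N)}
    (hw : h.toWord = a :: l) :
    ∃ m, (h⁻¹).toWord = inv' ((a :: l).getLast (by simp)) :: m := by
  rw [FreeGroup.toWord_inv, hw]
  have : (FreeGroup.invRev (a :: l)).head? = some (inv' ((a :: l).getLast (by simp))) := by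
    unfold FreeGroup.invRev
    rw [List.head?_reverse, List.getLast?_map, List.getLast?_eq_getLast_of_ne_nil (by simp)]
    rfl
  obtain ⟨m, hm⟩ := List.head?_eq_some_iff.mp this
  exact ⟨m, hm⟩

/-- A nontrivial element fixes only finitely many pairs through the base vertex. -/
theorem finite_fixed {h : FreeGroup (Fin N)} (hne : h ≠ 1) :
    {q : Bd2 N | h • q = q ∧ q ∈ U 1}.Finite := by
  obtain ⟨a, l, hw⟩ := exists_cons hne
  obtain ⟨m, hm⟩ := toWord_inv_cons hw
  have hinj : Set.InjOn (fun q : Bd2 N => (q.1.1.1 1, q.1.2.1 1))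
      {q : Bd2 N | h • q = q ∧ q ∈ U 1} := by
    intro q hq q' hq' heq
    simp only [Set.mem_ofPred_eq, mem_U] at hq hq'
    simp only [Prod.mk.injEq] at heq
    have f1 : h • q.1.1 = q.1.1 := by rw [← smul_fst, hq.1]
    have f2 : h • q.1.2 = q.1.2 := by rw [← smul_snd, hq.1]
    have f1' : h • q'.1.1 = q'.1.1 := by rw [← smul_fst, hq'.1]
    have f2' : h • q'.1.2 = q'.1.2 := by rw [← smul_snd, hq'.1]
    have hcyc := cyc_of_fixed hw f1 f2 hq.2
    have inv_fix : ∀ {ξ : Bd N}, h • ξ = ξ → h⁻¹ • ξ = ξ := by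
      intro ξ hξ
      rw [inv_smul_eq_iff, hξ]
    have hcyc' := cyc_of_fixed hm (inv_fix f1) (inv_fix f2) hq.2
    have hne' : a ≠ inv' ((a :: l).getLast (by simp)) := by
      have h1 := hcyc.2
      rw [hw] at h1
      have := h1 ((a :: l).getLast (by simp)) (by
        rw [List.getLast?_eq_getLast_of_ne_nil (by simp)]; rfl) a rfl
      rwa [reduced_iff] at this
    have key : ∀ {ξ ξ' : Bd N}, h • ξ = ξ → h • ξ' = ξ' → ξ.1 1 = ξ'.1 1 → ξ = ξ' := by
      intro ξ ξ' g1 g2 g3
      by_cases hx : ξ.1 1 = a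
      · refine fixed_unique hcyc' hm (inv_fix g1) (inv_fix g2) ?_ ?_
        · rw [hx]; exact hne'
        · rw [← g3, hx]; exact hne'
      · refine fixed_unique hcyc hw g1 g2 hx ?_
        rw [← g3]; exact hx
    apply Subtype.ext
    exact Prod.ext (key f1 f1' heq.1) (key f2 f2' heq.2)
  exact Set.Finite.of_finite_image (Set.toFinite _) hinj

theorem norm_conj_le {h g f : FreeGroup (Fin N)}
    (hc : FreeGroup.IsCyclicallyReduced h.toWord) (he : h = f * g * f⁻¹) : h.norm ≤ g.norm := by
  have hpow : ∀ n : ℕ, (h ^ n).norm = n * h.norm := by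
    intro n
    unfold FreeGroup.norm
    rw [norm_pow_of_cyc hc, List.length_flatten, List.map_replicate, List.sum_replicate,
      smul_eq_mul]
  have hpow2 : ∀ n : ℕ, (g ^ n).norm ≤ n * g.norm := by
    intro n
    induction n with
    | zero => simp
    | succ n ih =>
      rw [pow_succ]
      refine (FreeGroup.norm_mul_le _ _).trans ?_
      rw [Nat.succ_mul]
      omega
  by_contra hlt
  have h1 := hpow (2 * f.norm + 1)
  have h2 := hpow2 (2 * f.norm + 1)
  have h3 : h ^ (2 * f.norm + 1) = f * g ^ (2 * f.norm + 1) * f⁻¹ := by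
    rw [he, conj_pow]
  have h4 : (h ^ (2 * f.norm + 1)).norm ≤ f.norm + (g ^ (2 * f.norm + 1)).norm + f.norm := by
    rw [h3]
    refine (FreeGroup.norm_mul_le _ _).trans ?_
    rw [FreeGroup.norm_inv_eq]
    have := FreeGroup.norm_mul_le f (g ^ (2 * f.norm + 1))
    omega
  rw [h1] at h4
  have h5 : g.norm + 1 ≤ h.norm := by omega
  have h6 : (2 * f.norm + 1) * (g.norm + 1) ≤ (2 * f.norm + 1) * h.norm :=
    Nat.mul_le_mul_left _ h5
  rw [Nat.mul_add, mul_one] at h6
  omega

/-- The pairs of distinct end points of axes of conjugates of `g`. -/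
def Ends (g : FreeGroup (Fin N)) : Set (Bd2 N) :=
  {q | ∃ f : FreeGroup (Fin N), (f * g * f⁻¹) • q = q}

theorem finite_norm_le (R : ℕ) : {h : FreeGroup (Fin N) | h.norm ≤ R}.Finite := by
  have : (FreeGroup.toWord '' {h : FreeGroup (Fin N) | h.norm ≤ R}).Finite := by
    refine (List.finite_length_le (Lt N) R).subset ?_
    rintro _ ⟨h, hh, rfl⟩
    exact hh
  exact Set.Finite.of_finite_image this FreeGroup.toWord_injective.injOn

theorem finite_ends_one {g : FreeGroup (Fin N)} (hg : g ≠ 1) : (Ends g ∩ U 1).Finite := by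
  have : (⋃ h ∈ {h : FreeGroup (Fin N) | h.norm ≤ g.norm ∧ h ≠ 1},
      {q : Bd2 N | h • q = q ∧ q ∈ U 1}).Finite := by
    apply Set.Finite.biUnion
    · exact (finite_norm_le g.norm).subset fun h hh => hh.1
    · intro h hh
      exact finite_fixed hh.2
  refine this.subset ?_
  rintro q ⟨⟨f, hf⟩, hq⟩
  rw [Set.mem_iUnion₂]
  have hne : f * g * f⁻¹ ≠ 1 := by
    intro he
    apply hg
    rwa [mul_inv_eq_one, mul_eq_left] at he
  obtain ⟨a, l, hw⟩ := exists_cons hne
  have f1 : (f * g * f⁻¹) • q.1.1 = q.1.1 := by rw [← smul_fst, hf]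
  have f2 : (f * g * f⁻¹) • q.1.2 = q.1.2 := by rw [← smul_snd, hf]
  exact ⟨f * g * f⁻¹, ⟨norm_conj_le (cyc_of_fixed hw f1 f2 hq) rfl, hne⟩, hf, hq⟩

theorem smul_mem_ends (g k : FreeGroup (Fin N)) (q : Bd2 N) : k • q ∈ Ends g ↔ q ∈ Ends g := by
  have aux : ∀ (k : FreeGroup (Fin N)) (q : Bd2 N), q ∈ Ends g → k • q ∈ Ends g := by
    rintro k q ⟨f, hf⟩
    refine ⟨k * f, ?_⟩
    rw [← mul_smul, show k * f * g * (k * f)⁻¹ * k = k * (f * g * f⁻¹) by group, mul_smul, hf]
  refine ⟨fun h => ?_, aux k q⟩
  have := aux k⁻¹ _ h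
  rwa [inv_smul_smul] at this

theorem flip_mem_ends (g : FreeGroup (Fin N)) (q : Bd2 N) : flip2 q ∈ Ends g ↔ q ∈ Ends g := by
  have aux : ∀ (q : Bd2 N), q ∈ Ends g → flip2 q ∈ Ends g := by
    rintro q ⟨f, hf⟩
    refine ⟨f, ?_⟩
    apply Subtype.ext
    apply Prod.ext
    · change (f * g * f⁻¹) • q.1.2 = q.1.2
      rw [← smul_snd, hf]
    · change (f * g * f⁻¹) • q.1.1 = q.1.1
      rw [← smul_fst, hf]
  exact ⟨fun h => aux (flip2 q) h, aux q⟩

theorem finite_ends {g : FreeGroup (Fin N)} (hg : g ≠ 1) (v : FreeGroup (Fin N)) :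
    (Ends g ∩ U v).Finite := by
  have h1 := (finite_ends_one hg).image (fun q => v • q)
  refine h1.subset ?_
  rintro q ⟨hq, hv⟩
  refine ⟨v⁻¹ • q, ⟨(smul_mem_ends g v⁻¹ q).mpr hq, ?_⟩, smul_inv_smul v q⟩
  have := (smul_mem_U v⁻¹ v q).mpr hv
  rwa [inv_mul_cancel] at this

theorem countable_ends {g : FreeGroup (Fin N)} (hg : g ≠ 1) : (Ends g).Countable := by
  have : Ends g ⊆ ⋃ v : FreeGroup (Fin N), (Ends g ∩ U v) := by
    intro q hq
    obtain ⟨v, hv⟩ := exists_mem_U q
    exact Set.mem_iUnion.mpr ⟨v, hq, hv⟩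
  exact (Set.countable_iUnion fun v => (finite_ends hg v).countable).mono this

end Pool.Agent.H67R3.FSR
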