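import Mathlib
import Pool.Agent.H67R3.FSR.Boundary

set_option autoImplicit false

/-!
# Geodesic currents
-/

namespace Pool.Agent.H67R3.FSR

open MeasureTheory Topology Filter
open scoped ENNReal NNReal

variable {N : ℕ}

/-- A geodesic current (possibly zero): a Borel measure on the space of pairs of distinct boundary
points, finite on compact sets, invariant under the group and under the flip. -/
@[ext]
structure Current (N : ℕ) where
  meas : Measure (Bd2 N)
  finite : ∀ K : Set (Bd2 N), IsCompact K → meas K < ∞
  invariant : ∀ g : FreeGroup (Fin N), meas.map (fun q => g • q) = meas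
  flip : meas.map flip2 = meas

/-- The weak-* topology: the coarsest topology for which integration of each continuous function
with compact support is continuous. -/
noncomputable instance : TopologicalSpace (Current N) :=
  TopologicalSpace.induced
    (fun (μ : Current N) (f : {f : Bd2 N → ℝ // Continuous f ∧ HasCompactSupport f}) =>
      ∫ q, f.1 q ∂μ.meas) inferInstance

theorem measurable_smul2 (g : FreeGroup (Fin N)) : Measurable fun q : Bd2 N => g • q :=
  (continuous_smul_bd2 g).measurable

theorem measurable_flip2 : Measurable (flip2 : Bd2 N → Bd2 N) := continuous_flip2.measurable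

instance : Zero (Current N) where
  zero := ⟨0, fun _ _ => by simp, fun _ => by simp, by simp⟩

instance : Add (Current N) where
  add μ ν := ⟨μ.meas + ν.meas, fun K hK => by
      rw [Measure.add_apply]
      exact ENNReal.add_lt_top.mpr ⟨μ.finite K hK, ν.finite K hK⟩, fun g => by
      rw [Measure.map_add _ _ (measurable_smul2 g), μ.invariant, ν.invariant], by
      rw [Measure.map_add _ _ measurable_flip2, μ.flip, ν.flip]⟩

noncomputable instance : SMul ℝ≥0 (Current N) where
  smul c μ := ⟨c • μ.meas, fun K hK => by
      rw [Measure.smul_apply, ENNReal.smul_def, smul_eq_mul]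
      exact ENNReal.mul_lt_top ENNReal.coe_lt_top (μ.finite K hK), fun g => by
      rw [Measure.map_smul, μ.invariant], by
      rw [Measure.map_smul, μ.flip]⟩

theorem Current.zero_meas : (0 : Current N).meas = 0 := rfl

theorem Current.add_meas (μ ν : Current N) : (μ + ν).meas = μ.meas + ν.meas := rfl

theorem Current.smul_meas (c : ℝ≥0) (μ : Current N) : (c • μ).meas = c • μ.meas := rfl

/-- It suffices to check finiteness on the sets `U v`. -/
theorem finite_of_U {μ : Measure (Bd2 N)} (h : ∀ v, μ (U v) < ∞) (K : Set (Bd2 N))
    (hK : IsCompact K) : μ K < ∞ := by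
  obtain ⟨t, ht⟩ := hK.elim_finite_subcover (fun v : FreeGroup (Fin N) => (U v : Set (Bd2 N)))
    (fun v => isOpen_U v) (fun q _ => by
      obtain ⟨v, hv⟩ := exists_mem_U q
      exact Set.mem_iUnion.mpr ⟨v, hv⟩)
  refine lt_of_le_of_lt (measure_mono ht) ?_
  refine lt_of_le_of_lt (measure_biUnion_finset_le t _) ?_
  exact ENNReal.sum_lt_top.mpr fun v _ => h v

theorem measure_U {μ : Measure (Bd2 N)}
    (h : ∀ g : FreeGroup (Fin N), μ.map (fun q => g • q) = μ) (v : FreeGroup (Fin N)) :
    μ (U v) = μ (U 1) := by
  have h1 := h v
  conv_lhs => rw [← h v]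
  rw [Measure.map_apply (measurable_smul2 v) (isOpen_U v).measurableSet]
  congr 1
  ext q
  rw [Set.mem_preimage]
  have := smul_mem_U v 1 q
  rw [mul_one] at this
  exact this

/-- The exponent of `g`: if `g = r ^ k` with `k ≥ 1` and `r` not a proper power then the centralizer
of `g` is generated by `r` and this is `k`. -/
noncomputable def expo (g : FreeGroup (Fin N)) : ℕ :=
  (Subgroup.zpowers g).relIndex (Subgroup.centralizer {g})

/-- The counting measure of `g`: `expo g` times the counting measure on the set of pairs of end
points of the axes of the conjugates of `g`. -/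
noncomputable def etaMeas (g : FreeGroup (Fin N)) : Measure (Bd2 N) :=
  (expo g : ℝ≥0) • Measure.count.restrict (Ends g)

theorem etaMeas_U_lt {g : FreeGroup (Fin N)} (hg : g ≠ 1) (v : FreeGroup (Fin N)) :
    etaMeas g (U v) < ∞ := by
  rw [etaMeas, Measure.smul_apply, ENNReal.smul_def, smul_eq_mul]
  refine ENNReal.mul_lt_top ENNReal.coe_lt_top ?_
  rw [Measure.restrict_apply (isOpen_U v).measurableSet, Set.inter_comm,
    Measure.count_apply_lt_top]
  exact finite_ends hg v

theorem map_count_restrict {E : Set (Bd2 N)} (hE : E.Countable) (f : Bd2 N → Bd2 N)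
    (hf : Measurable f) (hbij : Function.Bijective f) (hm : ∀ q, f q ∈ E ↔ q ∈ E) :
    (Measure.count.restrict E).map f = Measure.count.restrict E := by
  ext A hA
  have hEm : MeasurableSet E := hE.measurableSet
  rw [Measure.map_apply hf hA, Measure.restrict_apply (hf hA), Measure.restrict_apply hA,
    Measure.count_apply ((hf hA).inter hEm), Measure.count_apply (hA.inter hEm)]
  congr 1
  have : f '' (f ⁻¹' A ∩ E) = A ∩ E := by
    ext q
    constructor
    · rintro ⟨p, ⟨h1, h2⟩, rfl⟩
      exact ⟨h1, (hm p).mpr h2⟩
    · rintro ⟨h1, h2⟩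
      obtain ⟨p, rfl⟩ := hbij.2 q
      exact ⟨p, ⟨h1, (hm p).mp h2⟩, rfl⟩
  rw [← this, hbij.1.encard_image]

/-- The counting current of a nontrivial element. -/
noncomputable def eta (g : FreeGroup (Fin N)) (hg : g ≠ 1) : Current N where
  meas := etaMeas g
  finite := finite_of_U (etaMeas_U_lt hg)
  invariant := fun k => by
    rw [etaMeas, Measure.map_smul, map_count_restrict (countable_ends hg) _ (measurable_smul2 k)
      (MulAction.bijective k) (smul_mem_ends g k)]
  flip := by
    rw [etaMeas, Measure.map_smul, map_count_restrict (countable_ends hg) _ measurable_flip2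
      (Function.Involutive.bijective fun _ => rfl) (flip_mem_ends g)]

/-- A convergent infinite sum of currents. -/
noncomputable def sumCurrent (c : ℕ → ℝ≥0) (η : ℕ → Current N)
    (h : ∑' n, (c n : ℝ≥0∞) * (η n).meas (U 1) < ∞) : Current N where
  meas := Measure.sum fun n => c n • (η n).meas
  finite := finite_of_U fun v => by
    rw [Measure.sum_apply _ (isOpen_U v).measurableSet]
    refine lt_of_le_of_lt (le_of_eq ?_) h
    congr 1
    funext n
    rw [Measure.smul_apply, ENNReal.smul_def, smul_eq_mul, measure_U (η n).invariant]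
  invariant := fun g => by
    rw [Measure.map_sum (measurable_smul2 g).aemeasurable]
    congr 1
    funext n
    rw [Measure.map_smul, (η n).invariant]
  flip := by
    rw [Measure.map_sum measurable_flip2.aemeasurable]
    congr 1
    funext n
    rw [Measure.map_smul, (η n).flip]

/-- Partial sums. -/
noncomputable def part (c : ℕ → ℝ≥0) (η : ℕ → Current N) : ℕ → Current N
  | 0 => 0
  | n + 1 => part c η n + c n • η n

instance (μ : Current N) : IsFiniteMeasureOnCompacts μ.meas := ⟨fun K hK => μ.finite K hK⟩

theorem integrable_test (μ : Current N) (f : {f : Bd2 N → ℝ // Continuous f ∧ HasCompactSupport f}) :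
    Integrable f.1 μ.meas := f.2.1.integrable_of_hasCompactSupport f.2.2

theorem integral_part (c : ℕ → ℝ≥0) (η : ℕ → Current N)
    (f : {f : Bd2 N → ℝ // Continuous f ∧ HasCompactSupport f}) (n : ℕ) :
    ∫ q, f.1 q ∂(part c η n).meas = ∑ i ∈ Finset.range n, ∫ q, f.1 q ∂(c i • (η i).meas) := by
  induction n with
  | zero => simp [part, Current.zero_meas]
  | succ n ih =>
    rw [part, Current.add_meas, integral_add_measure (integrable_test _ f)
      (integrable_test (c n • η n) f), ih, Finset.sum_range_succ, Current.smul_meas]

theorem tendsto_part (c : ℕ → ℝ≥0) (η : ℕ → Current N)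
    (h : ∑' n, (c n : ℝ≥0∞) * (η n).meas (U 1) < ∞) :
    Tendsto (part c η) atTop (𝓝 (sumCurrent c η h)) := by
  rw [(Topology.IsInducing.mk rfl : Topology.IsInducing
    (fun (μ : Current N) (f : {f : Bd2 N → ℝ // Continuous f ∧ HasCompactSupport f}) =>
      ∫ q, f.1 q ∂μ.meas)).tendsto_nhds_iff, tendsto_pi_nhds]
  intro f
  have hs := hasSum_integral_measure (μ := fun n => c n • (η n).meas) (f := f.1)
    (integrable_test (sumCurrent c η h) f)
  have := hs.tendsto_sum_nat
  refine this.congr fun n => ?_
  exact (integral_part c η f n).symm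

end Pool.Agent.H67R3.FSR
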