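import Mathlib

set_option autoImplicit false

namespace Pool.Agent.H67R3.FSR

open Filter Topology

/-- Zeros of a nonzero power series with bounded coefficients. -/
theorem countable_zeros (b : ℕ → ℝ) (hb : ∃ C, ∀ n, |b n| ≤ C) (n₀ : ℕ) (hn : b n₀ ≠ 0) :
    {t : ℝ | t ∈ Set.Ioo (0 : ℝ) 1 ∧ ∑' n, b n * t ^ n = 0}.Countable := by
  set p : FormalMultilinearSeries ℝ ℝ ℝ := FormalMultilinearSeries.ofScalars ℝ b with hp
  obtain ⟨C, hC⟩ := hb
  have hrad : (1 : ENNReal) ≤ p.radius := by
    have : ∀ n, ‖p n‖ * ((1 : NNReal) : ℝ) ^ n ≤ C := by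
      intro n
      rw [NNReal.coe_one, one_pow, mul_one, hp, FormalMultilinearSeries.ofScalars_norm]
      exact hC n
    have := p.le_radius_of_bound C this
    simpa using this
  have hps : HasFPowerSeriesOnBall p.sum p 0 p.radius :=
    p.hasFPowerSeriesOnBall (lt_of_lt_of_le one_pos hrad)
  have hps1 : HasFPowerSeriesOnBall p.sum p 0 1 := hps.mono one_pos hrad
  have hsum : ∀ t : ℝ, p.sum t = ∑' n, b n * t ^ n := by
    intro t
    rw [FormalMultilinearSeries.sum]
    congr 1
    ext n
    rw [hp, FormalMultilinearSeries.ofScalars_apply_eq]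
    simp
  have han := hps1.analyticOnNhd
  have hne : ¬ Set.EqOn p.sum 0 (Metric.eball 0 1) := by
    intro h
    have h1 : HasFPowerSeriesOnBall (0 : ℝ → ℝ) p 0 1 := hps1.congr h
    have h2 := h1.hasFPowerSeriesAt.eq_zero
    rw [hp, FormalMultilinearSeries.ofScalars_series_eq_zero] at h2
    apply hn
    rw [h2]
    rfl
  set Z := {t : ℝ | t ∈ Set.Ioo (0 : ℝ) 1 ∧ ∑' n, b n * t ^ n = 0} with hZ
  have hdisc : DiscreteTopology Z := by
    rw [discreteTopology_subtype_iff]
    intro x hx
    have hxb : x ∈ Metric.eball (0 : ℝ) 1 := by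
      rw [Metric.mem_eball, edist_dist, Real.dist_eq, sub_zero, ← ENNReal.ofReal_one]
      rw [hZ] at hx
      simp only [Set.mem_ofPred_eq, Set.mem_Ioo] at hx
      exact (ENNReal.ofReal_lt_ofReal_iff one_pos).mpr (by rw [abs_of_pos hx.1.1]; exact hx.1.2)
    by_contra hcon
    apply hne
    apply han.eqOn_zero_of_preconnected_of_frequently_eq_zero _ hxb
    · rw [Filter.Frequently]
      intro hev
      apply hcon
      rw [← Filter.empty_mem_iff_bot, Filter.mem_inf_iff]
      refine ⟨_, hev, Z, Filter.mem_principal_self Z, ?_⟩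
      ext y
      constructor
      · intro hy
        exact absurd hy (Set.notMem_empty y)
      · rintro ⟨h1, h2⟩
        exfalso
        apply h1
        rw [hsum]
        rw [hZ] at h2
        simp only [Set.mem_ofPred_eq] at h2
        exact h2.2
    · rw [← ENNReal.ofReal_one, Metric.eball_ofReal]
      exact (convex_ball (0 : ℝ) 1).isPreconnected
  have : Countable Z := countable_of_Lindelof_of_discrete
  exact Set.to_countable Z

/-- Choosing finitely many parameters. -/
theorem choose_family {V : Type} [AddCommGroup V] [Module ℝ V] (Λ : ℝ → (V →ₗ[ℝ] ℝ))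
    (hΛ : ∀ v : V, v ≠ 0 → {t : ℝ | t ∈ Set.Ioo (0 : ℝ) 1 ∧ Λ t v = 0}.Countable) :
    ∀ (k : ℕ) (ι : Type) [Countable ι] (W : ι → Submodule ℝ V),
      (∀ j, FiniteDimensional ℝ (W j)) → (∀ j, Module.finrank ℝ (W j) ≤ k) →
      ∃ S : Finset ℝ, (∀ t ∈ S, t ∈ Set.Ioo (0 : ℝ) 1) ∧ S.card ≤ k ∧
        ∀ j, ∀ v ∈ W j, (∀ t ∈ S, Λ t v = 0) → v = 0 := by
  intro k
  induction k with
  | zero =>
    intro ι _ W hfin hk
    refine ⟨∅, by simp, by simp, fun j v hv _ => ?_⟩
    have := hfin j
    have h0 : Module.finrank ℝ (W j) = 0 := Nat.le_zero.mp (hk j)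
    rw [Submodule.finrank_eq_zero] at h0
    rw [h0] at hv
    exact (Submodule.mem_bot ℝ).mp hv
  | succ k ih =>
    intro ι _ W hfin hk
    classical
    -- a countable bad set
    have hbad : (⋃ j : ι, ⋃ h : W j ≠ ⊥,
        {t : ℝ | t ∈ Set.Ioo (0 : ℝ) 1 ∧ Λ t ((Submodule.exists_mem_ne_zero_of_ne_bot h).choose) = 0}).Countable := by
      apply Set.countable_iUnion
      intro j
      apply Set.countable_iUnion
      intro h
      exact hΛ _ (Submodule.exists_mem_ne_zero_of_ne_bot h).choose_spec.2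
    have hex : ∃ t ∈ Set.Ioo (0 : ℝ) 1, t ∉ (⋃ j : ι, ⋃ h : W j ≠ ⊥,
        {t : ℝ | t ∈ Set.Ioo (0 : ℝ) 1 ∧ Λ t ((Submodule.exists_mem_ne_zero_of_ne_bot h).choose) = 0}) := by
      by_contra hcon
      push Not at hcon
      have : (Set.Ioo (0 : ℝ) 1).Countable := hbad.mono hcon
      have h1 := Cardinal.mk_Ioo_real (show (0 : ℝ) < 1 by norm_num)
      have h2 : Cardinal.mk (Set.Ioo (0 : ℝ) 1) ≤ Cardinal.aleph0 := by
        rw [Cardinal.le_aleph0_iff_set_countable]
        exact this
      rw [h1] at h2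
      exact absurd h2 (not_le.mpr Cardinal.aleph0_lt_continuum)
    obtain ⟨t₀, ht₀, hnot⟩ := hex
    obtain ⟨S, hS, hcard, hS'⟩ := ih ι (fun j => W j ⊓ LinearMap.ker (Λ t₀))
      (fun j => by
        have := hfin j
        exact Submodule.finiteDimensional_inf_left _ _)
      (fun j => by
        have := hfin j
        by_cases h : W j = ⊥
        · rw [h, bot_inf_eq, finrank_bot]
          exact Nat.zero_le _
        · have hlt : W j ⊓ LinearMap.ker (Λ t₀) < W j := by
            refine lt_of_le_of_ne inf_le_left fun heq => hnot ?_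
            rw [Set.mem_iUnion]
            refine ⟨j, ?_⟩
            rw [Set.mem_iUnion]
            refine ⟨h, ?_⟩
            simp only [Set.mem_ofPred_eq]
            refine ⟨ht₀, ?_⟩
            have hm := (Submodule.exists_mem_ne_zero_of_ne_bot h).choose_spec.1
            exact (Submodule.mem_inf.mp (heq.ge hm)).2
          have := Submodule.finrank_lt_finrank_of_lt hlt
          have := hk j
          omega)
    refine ⟨insert t₀ S, ?_, ?_, ?_⟩
    · intro t ht
      rcases Finset.mem_insert.mp ht with rfl | h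
      · exact ht₀
      · exact hS t h
    · exact (Finset.card_insert_le _ _).trans (by omega)
    · intro j v hv h
      exact hS' j v (Submodule.mem_inf.mpr ⟨hv, h t₀ (Finset.mem_insert_self _ _)⟩)
        (fun t ht => h t (Finset.mem_insert_of_mem ht))

/-- The space of functions which are summable against the weights `w`. -/
def good (w : ℕ → ℝ) : Submodule ℝ (ℕ → ℝ) where
  carrier := {a | Summable fun n => w n * a n}
  zero_mem' := by
    simp only [Set.mem_ofPred_eq, Pi.zero_apply, mul_zero]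
    exact summable_zero
  add_mem' := by
    intro a b ha hb
    simp only [Set.mem_ofPred_eq, Pi.add_apply, mul_add] at ha hb ⊢
    exact ha.add hb
  smul_mem' := by
    intro c a ha
    simp only [Set.mem_ofPred_eq, Pi.smul_apply, smul_eq_mul] at ha ⊢
    have := ha.mul_left c
    refine this.congr fun n => ?_
    ring

theorem mem_good (w : ℕ → ℝ) (a : ℕ → ℝ) : a ∈ good w ↔ Summable fun n => w n * a n := Iff.rfl

theorem summable_pow {w a : ℕ → ℝ} (ha : a ∈ good w) {t : ℝ} (ht : t ∈ Set.Icc (0 : ℝ) 1) :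
    Summable fun n => w n * a n * t ^ n := by
  rw [mem_good] at ha
  refine Summable.of_norm_bounded ha.norm fun n => ?_
  rw [norm_mul]
  refine mul_le_of_le_one_right (norm_nonneg _) ?_
  rw [norm_pow, Real.norm_eq_abs, abs_of_nonneg ht.1]
  exact pow_le_one₀ ht.1 ht.2

open Classical in
noncomputable def Lam (w : ℕ → ℝ) (t : ℝ) : good w →ₗ[ℝ] ℝ :=
  if ht : t ∈ Set.Icc (0 : ℝ) 1 then
    { toFun := fun a => ∑' n, w n * a.1 n * t ^ n
      map_add' := by
        intro a b
        rw [← (summable_pow a.2 ht).tsum_add (summable_pow b.2 ht)]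
        congr 1
        funext n
        simp only [Submodule.coe_add, Pi.add_apply]
        ring
      map_smul' := by
        intro c a
        rw [RingHom.id_apply, smul_eq_mul, ← tsum_mul_left]
        congr 1
        funext n
        simp only [SetLike.val_smul, Pi.smul_apply, smul_eq_mul]
        ring }
  else 0

theorem Lam_apply (w : ℕ → ℝ) {t : ℝ} (ht : t ∈ Set.Icc (0 : ℝ) 1) (a : good w) :
    Lam w t a = ∑' n, w n * a.1 n * t ^ n := by
  rw [Lam, dif_pos ht]
  rfl

theorem Lam_countable (w : ℕ → ℝ) (hw : ∀ n, 0 < w n) (v : good w) (hv : v ≠ 0) :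
    {t : ℝ | t ∈ Set.Ioo (0 : ℝ) 1 ∧ Lam w t v = 0}.Countable := by
  have : ∃ n, v.1 n ≠ 0 := by
    by_contra hc
    push Not at hc
    apply hv
    ext n
    exact hc n
  obtain ⟨n₀, hn₀⟩ := this
  have hsum : Summable fun n => w n * v.1 n := v.2
  have hb : ∃ C, ∀ n, |w n * v.1 n| ≤ C := by
    have h0 := hsum.tendsto_atTop_zero.norm.bddAbove_range
    obtain ⟨C, hC⟩ := h0
    exact ⟨C, fun n => hC ⟨n, rfl⟩⟩
  have := countable_zeros (fun n => w n * v.1 n) hb n₀ (mul_ne_zero (hw _).ne' hn₀)
  refine this.mono ?_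
  intro t ht
  simp only [Set.mem_ofPred_eq] at ht ⊢
  refine ⟨ht.1, ?_⟩
  rw [← Lam_apply w (Set.Ioo_subset_Icc_self ht.1)]
  exact ht.2

end Pool.Agent.H67R3.FSR
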