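import Mathlib
import Pool.Agent.H67R3.FSR.Nielsen

set_option autoImplicit false

namespace Pool.Agent.H67R3.FSR

open Pool.Agent.H472R3

variable {N : ℕ}

/-- The length of a word computed from local data. -/
noncomputable def Q (p : (Lt N → ℝ) × (Lt N × Lt N → ℝ)) : List (Lt N) → ℝ
  | [] => 0
  | [a] => p.1 a
  | a :: b :: l => p.1 a - 2 * p.2 (a, b) + Q p (b :: l)

theorem Q_add (p q : (Lt N → ℝ) × (Lt N × Lt N → ℝ)) : ∀ l, Q (p + q) l = Q p l + Q q l
  | [] => by simp [Q]
  | [a] => by simp [Q]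
  | a :: b :: l => by
    simp only [Q, Prod.fst_add, Prod.snd_add, Pi.add_apply, Q_add p q (b :: l)]
    ring

theorem Q_smul (r : ℝ) (p : (Lt N → ℝ) × (Lt N × Lt N → ℝ)) : ∀ l, Q (r • p) l = r * Q p l
  | [] => by simp [Q]
  | [a] => by simp [Q]
  | a :: b :: l => by
    simp only [Q, Prod.smul_fst, Prod.smul_snd, Pi.smul_apply, smul_eq_mul, Q_smul r p (b :: l)]
    ring

theorem reduced_step {a b : Lt N} (h : a.1 = b.1 → a.2 = b.2) : b ≠ inv' a := by
  rintro rfl
  have := h rfl
  simp [inv'] at this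

theorem mk_cons (a : Lt N) (l : List (Lt N)) :
    (FreeGroup.mk (a :: l) : FreeGroup (Fin N)) = lt a * FreeGroup.mk l := by
  rw [lt, FreeGroup.mul_mk]
  rfl

theorem formula_list (ℓ : LenFn N) (φ : FreeGroup (Fin N) ≃* FreeGroup (Fin N))
    (h : ∀ a b d : Lt N, b ≠ inv' a → d ≠ inv' b →
      G ℓ (φ (lt a))⁻¹ (φ (lt b)) + G ℓ (φ (lt b))⁻¹ (φ (lt d)) < ℓ.L (φ (lt b))) :
    ∀ l : List (Lt N), FreeGroup.IsReduced l →
      ℓ.L (φ (FreeGroup.mk l)) =
        Q (fun a => ℓ.L (φ (lt a)), fun q => G ℓ (φ (lt q.1))⁻¹ (φ (lt q.2))) l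
  | [], _ => by
    have : (FreeGroup.mk [] : FreeGroup (Fin N)) = 1 := rfl
    rw [this, map_one, ℓ.one, Q]
  | [a], _ => by rw [Q]; rfl
  | a :: b :: l, hl => by
    have hab : b ≠ inv' a := by
      apply reduced_step
      have := hl
      unfold FreeGroup.IsReduced at this
      rw [List.isChain_cons_cons] at this
      exact this.1
    have hbl : FreeGroup.IsReduced (b :: l) := by
      have := hl
      unfold FreeGroup.IsReduced at this
      rw [List.isChain_cons_cons] at this
      exact this.2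
    have i1 := formula_list ℓ φ h (b :: l) hbl
    have hself : b ≠ inv' b := by
      intro hb
      have := congrArg Prod.snd hb
      simp [inv'] at this
    set W := φ (FreeGroup.mk (b :: l)) with hW
    have hlt : G ℓ (φ (lt a))⁻¹ (φ (lt b)) < G ℓ (φ (lt b)) W := by
      have e : (φ (lt b))⁻¹ * W = φ (FreeGroup.mk l) := by
        rw [hW, mk_cons, map_mul, inv_mul_cancel_left]
      have eG : G ℓ (φ (lt b)) W =
          (ℓ.L (φ (lt b)) + ℓ.L W - ℓ.L (φ (FreeGroup.mk l))) / 2 := by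
        unfold G
        rw [e]
      rw [eG]
      clear_value W
      match l, hbl with
      | [], _ =>
        rw [formula_list ℓ φ h [] (by simp), i1, Q, Q]
        have h1 := h a b b hab hself
        have h2 := G_nonneg ℓ (φ (lt b))⁻¹ (φ (lt b))
        simp only
        linarith
      | d :: l', hbl =>
        have hbd : d ≠ inv' b := by
          apply reduced_step
          have := hbl
          unfold FreeGroup.IsReduced at this
          rw [List.isChain_cons_cons] at this
          exact this.1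
        have hdl : FreeGroup.IsReduced (d :: l') := by
          have := hbl
          unfold FreeGroup.IsReduced at this
          rw [List.isChain_cons_cons] at this
          exact this.2
        rw [formula_list ℓ φ h (d :: l') hdl, i1, Q]
        have h1 := h a b d hab hbd
        simp only
        linarith
    have hG := G_iso ℓ hlt
    rw [mk_cons, map_mul, ← hW]
    rw [Q, ← i1]
    simp only
    rw [← hG]
    unfold G
    rw [inv_inv, ℓ.inv]
    ring

theorem exists_formula (ℓ : LenFn N) (hhyp : ∀ g, g ≠ 1 → ℓ.L g < ℓ.L (g * g))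
    (hfin : ∀ R : ℝ, {g | ℓ.L g ≤ R}.Finite) :
    ∃ (φ : FreeGroup (Fin N) ≃* FreeGroup (Fin N)) (p : (Lt N → ℝ) × (Lt N × Lt N → ℝ)),
      ∀ g, ℓ.L g = Q p (φ.symm g).toWord := by
  obtain ⟨φ, h⟩ := nielsen ℓ hhyp hfin
  refine ⟨φ, (fun a => ℓ.L (φ (lt a)), fun q => G ℓ (φ (lt q.1))⁻¹ (φ (lt q.2))), fun g => ?_⟩
  have := formula_list ℓ φ h (φ.symm g).toWord FreeGroup.isReduced_toWord
  rw [FreeGroup.mk_toWord, MulEquiv.apply_symm_apply] at this
  exact this

/-- The linear parametrisation of length functions. -/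
noncomputable def Theta (φ : FreeGroup (Fin N) ≃* FreeGroup (Fin N)) :
    ((Lt N → ℝ) × (Lt N × Lt N → ℝ)) →ₗ[ℝ] (FreeGroup (Fin N) → ℝ) where
  toFun p g := Q p (φ.symm (g * g)).toWord - Q p (φ.symm g).toWord
  map_add' p q := by
    funext g
    rw [Q_add, Q_add, Pi.add_apply]
    ring
  map_smul' r p := by
    funext g
    rw [Q_smul, Q_smul, Pi.smul_apply, RingHom.id_apply, smul_eq_mul]
    ring

theorem exists_theta (ℓ : LenFn N) (hhyp : ∀ g, g ≠ 1 → ℓ.L g < ℓ.L (g * g))
    (hfin : ∀ R : ℝ, {g | ℓ.L g ≤ R}.Finite) :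
    ∃ (φ : FreeGroup (Fin N) ≃* FreeGroup (Fin N)) (p : (Lt N → ℝ) × (Lt N × Lt N → ℝ)),
      Theta φ p = fun g => ℓ.L (g * g) - ℓ.L g := by
  obtain ⟨φ, p, h⟩ := exists_formula ℓ hhyp hfin
  refine ⟨φ, p, ?_⟩
  funext g
  change Q p (φ.symm (g * g)).toWord - Q p (φ.symm g).toWord = _
  rw [← h, ← h]

end Pool.Agent.H67R3.FSR
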