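import Mathlib
import Pool.Agent.H67R3.FSR.Nielsen

set_option autoImplicit false

namespace Pool.Agent.H67R3.FSR

open Pool.Agent.H472R3

variable {N : ℕ}

/-- The based length function. -/
noncomputable def lenFn (A : FTree N) (x : A.T) : LenFn N where
  L g := dist x (g • x)
  one := by rw [one_smul, dist_self]
  inv g := by
    rw [← A.isometric g x, smul_inv_smul, dist_comm]
  um g h k := by
    have e : ∀ g h : FreeGroup (Fin N), dist x ((g⁻¹ * h) • x) = dist (g • x) (h • x) := by
      intro g h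
      rw [← A.isometric g x, mul_smul, smul_inv_smul]
    rw [e, e, e]
    have := A.isRTree.zeroHyperbolic x (h • x) (g • x) (k • x)
    rw [min_le_iff]
    rw [le_max_iff] at this
    rw [dist_comm (h • x) (g • x)] at this
    rcases this with h1 | h1
    · right; linarith
    · left; linarith

theorem lenFn_L (A : FTree N) (x : A.T) (g : FreeGroup (Fin N)) :
    (lenFn A x).L g = dist x (g • x) := rfl

theorem exists_disp (A : FTree N) (g : FreeGroup (Fin N)) (x : A.T) :
    ∃ m : A.T, dist m (g • m) = max 0 (dist x (g • g • x) - dist x (g • x)) := by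
  have hiso := A.isometric g
  obtain ⟨m, hm⟩ := A.isRTree.exists_mid x (g • x)
  refine ⟨m, ?_⟩
  have e1 : dist (g • x) (g • m) = dist x (g • x) / 2 := by
    rw [hiso, dist_comm x m, hm x, dist_self, dist_comm (g • x) x, max_eq_right dist_nonneg]
    ring
  have e2 : dist x (g • m) = max (dist x (g • x)) (dist x (g • g • x)) - dist x (g • x) / 2 := by
    have h1 : dist m (g⁻¹ • x) = max (dist x (g⁻¹ • x)) (dist (g • x) (g⁻¹ • x)) -
      dist x (g • x) / 2 := hm _
    have h2 : dist m (g⁻¹ • x) = dist x (g • m) := by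
      rw [← hiso m, smul_inv_smul, dist_comm]
    have h3 : dist x (g⁻¹ • x) = dist x (g • x) := by
      rw [← hiso x, smul_inv_smul, dist_comm]
    have h4 : dist (g • x) (g⁻¹ • x) = dist x (g • g • x) := by
      rw [← hiso (g • x), smul_inv_smul, dist_comm]
    rw [← h2, h1, h3, h4]
  rw [hm (g • m), e1, e2]
  have hnn : 0 ≤ dist x (g • x) := dist_nonneg
  rcases le_total (dist x (g • x)) (dist x (g • g • x)) with h | h
  · rw [max_eq_right h, max_eq_left (by linarith), max_eq_right (by linarith)]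
    ring
  · rw [max_eq_left h, max_eq_left (by linarith), max_eq_left (by linarith)]
    ring

theorem hyperbolic (A : FTree N) (hA : A.Free) (x : A.T) (g : FreeGroup (Fin N)) (hg : g ≠ 1) :
    (lenFn A x).L g < (lenFn A x).L (g * g) := by
  rw [lenFn_L, lenFn_L, mul_smul]
  by_contra hc
  obtain ⟨m, hm⟩ := exists_disp A g x
  rw [max_eq_left (by linarith [not_lt.mp hc])] at hm
  exact hg (hA g m (dist_eq_zero.mp hm).symm)

theorem len_eq' (A : FTree N) (hA : A.Free) (x : A.T) (g : FreeGroup (Fin N)) (hg : g ≠ 1) :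
    A.len g = (lenFn A x).L (g * g) - (lenFn A x).L g := by
  have h := hyperbolic A hA x g hg
  rw [A.len_eq g x, ← mul_smul, ← lenFn_L, ← lenFn_L, max_eq_right (by linarith)]

theorem len_pos (A : FTree N) (hA : A.Free) (g : FreeGroup (Fin N)) (hg : g ≠ 1) : 0 < A.len g := by
  obtain ⟨x⟩ := A.isRTree.nonempty
  rw [len_eq' A hA x g hg]
  linarith [hyperbolic A hA x g hg]

/-- Segments. -/
def seg {T : Type} [MetricSpace T] (x y : T) : Set T := {z | dist x z + dist z y = dist x y}

theorem mem_seg {T : Type} [MetricSpace T] (x y z : T) :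
    z ∈ seg x y ↔ dist x z + dist z y = dist x y := Iff.rfl

theorem left_mem_seg {T : Type} [MetricSpace T] (x y : T) : x ∈ seg x y := by
  rw [mem_seg, dist_self, zero_add]

theorem right_mem_seg {T : Type} [MetricSpace T] (x y : T) : y ∈ seg x y := by
  rw [mem_seg, dist_self, add_zero]

theorem tripod {T : Type} [MetricSpace T] (hT : IsRTree T) (p : T) {u v z : T}
    (h : z ∈ seg u v) : z ∈ seg p u ∨ z ∈ seg p v := by
  rw [mem_seg] at h
  have := hT.zeroHyperbolic p z u v
  rw [le_max_iff] at this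
  have t1 := dist_triangle p z u
  have t2 := dist_triangle p z v
  rcases this with h1 | h1
  · left
    rw [mem_seg, dist_comm z u]
    rw [dist_comm z u] at t1
    linarith
  · right
    rw [mem_seg]
    rw [dist_comm z u] at h1
    linarith

theorem seg_trans {T : Type} [MetricSpace T] {p q u z : T} (h1 : u ∈ seg p q)
    (h2 : z ∈ seg p u) : z ∈ seg p q := by
  rw [mem_seg] at h1 h2 ⊢
  have t1 := dist_triangle z u q
  have t2 := dist_triangle p z q
  linarith

theorem smul_seg (A : FTree N) (g : FreeGroup (Fin N)) {x y z : A.T} (h : z ∈ seg x y) :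
    g • z ∈ seg (g • x) (g • y) := by
  rw [mem_seg] at h ⊢
  rw [A.isometric, A.isometric, A.isometric, h]

theorem isCompact_seg {T : Type} [MetricSpace T] (hT : IsRTree T) (x y : T) :
    IsCompact (seg x y) := by
  obtain ⟨γ, h0, h1, h2⟩ := hT.geodesic x y
  have hd : (0 : ℝ) ≤ dist x y := dist_nonneg
  have hcont : ContinuousOn γ (Set.Icc 0 (dist x y)) := by
    have : LipschitzOnWith 1 γ (Set.Icc 0 (dist x y)) := by
      apply LipschitzOnWith.of_dist_le_mul
      intro s hs t ht
      rw [h2 s hs t ht, NNReal.coe_one, one_mul, Real.dist_eq]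
    exact this.continuousOn
  have hc := isCompact_Icc.image_of_continuousOn hcont
  have : seg x y = γ '' Set.Icc 0 (dist x y) := by
    ext z
    constructor
    · intro hz
      rw [mem_seg] at hz
      have ht : dist x z ∈ Set.Icc 0 (dist x y) :=
        ⟨dist_nonneg, by linarith [@dist_nonneg _ _ z y]⟩
      refine ⟨dist x z, ht, ?_⟩
      have e1 : dist x (γ (dist x z)) = dist x z := by
        have := h2 0 ⟨le_rfl, hd⟩ _ ht
        rw [h0, zero_sub, abs_neg, abs_of_nonneg dist_nonneg] at this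
        exact this
      have e2 : dist (γ (dist x z)) y = dist x y - dist x z := by
        have := h2 _ ht _ ⟨hd, le_rfl⟩
        rw [h1, abs_sub_comm, abs_of_nonneg (by linarith [ht.2])] at this
        exact this
      have h4 := hT.zeroHyperbolic (γ (dist x z)) z x y
      rw [dist_comm (γ (dist x z)) x, dist_comm z x, e1, e2] at h4
      rw [← dist_le_zero]
      rw [max_eq_left (by linarith)] at h4
      linarith
    · rintro ⟨t, ht, rfl⟩
      rw [mem_seg]
      have e1 : dist x (γ t) = t := by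
        have := h2 0 ⟨le_rfl, hd⟩ _ ht
        rw [h0, zero_sub, abs_neg, abs_of_nonneg ht.1] at this
        exact this
      have e2 : dist (γ t) y = dist x y - t := by
        have := h2 _ ht _ ⟨hd, le_rfl⟩
        rw [h1, abs_sub_comm, abs_of_nonneg (by linarith [ht.2])] at this
        exact this
      rw [e1, e2]
      ring
  rw [this]
  exact hc

/-- A minimal tree is the union of the segments from a point to its translates. -/
theorem exists_seg (A : FTree N) (hmin : A.Minimal) (p z : A.T) : ∃ g : FreeGroup (Fin N),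
    z ∈ seg p (g • p) := by
  have := hmin {z | ∃ g : FreeGroup (Fin N), z ∈ seg p (g • p)} ⟨p, 1, left_mem_seg _ _⟩ (by
    rintro u ⟨g, hg⟩ v ⟨h, hh⟩ z hz
    rcases tripod A.isRTree p (u := u) (v := v) (z := z) hz with h1 | h1
    · exact ⟨g, seg_trans hg h1⟩
    · exact ⟨h, seg_trans hh h1⟩) (by
    rintro h z ⟨g, hg⟩
    rcases tripod A.isRTree p (smul_seg A h hg) with h1 | h1
    · exact ⟨h, h1⟩
    · exact ⟨h * g, by rw [mul_smul]; exact h1⟩)
  have hz : z ∈ (Set.univ : Set A.T) := Set.mem_univ z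
  rw [← this] at hz
  exact hz

/-- A compact set whose translates cover the tree. -/
def K0 (A : FTree N) (p : A.T) : Set A.T := {p} ∪ ⋃ a : Lt N, seg p (lt a • p)

theorem isCompact_K0 (A : FTree N) (p : A.T) : IsCompact (K0 A p) :=
  isCompact_singleton.union (isCompact_iUnion fun _ => isCompact_seg A.isRTree _ _)

theorem mem_K0 (A : FTree N) (p : A.T) : p ∈ K0 A p := Or.inl rfl

theorem cover_list (A : FTree N) (p : A.T) : ∀ (l : List (Lt N)) (z : A.T),
    z ∈ seg p ((FreeGroup.mk l : FreeGroup (Fin N)) • p) →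
    ∃ (h : FreeGroup (Fin N)), ∃ y ∈ K0 A p, z = h • y
  | [], z, hz => by
    have : (FreeGroup.mk [] : FreeGroup (Fin N)) = 1 := rfl
    rw [this, one_smul, mem_seg, dist_self] at hz
    have h1 : dist p z = 0 := by
      have := @dist_nonneg _ _ p z
      have := @dist_nonneg _ _ z p
      linarith
    refine ⟨1, p, mem_K0 A p, ?_⟩
    rw [one_smul]
    exact (dist_eq_zero.mp h1).symm
  | a :: l, z, hz => by
    have e : (FreeGroup.mk (a :: l) : FreeGroup (Fin N)) = lt a * FreeGroup.mk l := by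
      rw [lt, FreeGroup.mul_mk]
      rfl
    rw [e, mul_smul] at hz
    rcases tripod A.isRTree (lt a • p) hz with h1 | h1
    · refine ⟨1, z, Or.inr (Set.mem_iUnion.mpr ⟨a, ?_⟩), (one_smul _ _).symm⟩
      rw [mem_seg] at h1 ⊢
      rw [dist_comm (lt a • p) z, dist_comm (lt a • p) p, dist_comm z p] at h1
      linarith
    · have h2 := smul_seg A (lt a)⁻¹ h1
      rw [inv_smul_smul, inv_smul_smul] at h2
      obtain ⟨h, y, hy, he⟩ := cover_list A p l _ h2
      refine ⟨lt a * h, y, hy, ?_⟩
      rw [mul_smul, ← he, smul_inv_smul]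

theorem cover (A : FTree N) (hmin : A.Minimal) (p z : A.T) :
    ∃ (h : FreeGroup (Fin N)), ∃ y ∈ K0 A p, z = h • y := by
  obtain ⟨g, hg⟩ := exists_seg A hmin p z
  have := cover_list A p g.toWord z
  rw [FreeGroup.mk_toWord] at this
  exact this hg

theorem uniform (A : FTree N) (hA : A.InCV) : ∃ δ > 0, ∀ (z : A.T) (g : FreeGroup (Fin N)),
    g ≠ 1 → δ ≤ dist z (g • z) := by
  obtain ⟨hfree, hmin, hdisc⟩ := hA
  obtain ⟨p⟩ := A.isRTree.nonempty
  have key : ∃ δ > 0, ∀ z ∈ K0 A p, ∀ (g : FreeGroup (Fin N)), g ≠ 1 → δ ≤ dist z (g • z) := by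
    refine (isCompact_K0 A p).induction_on (p := fun s => ∃ δ > 0, ∀ z ∈ s,
      ∀ (g : FreeGroup (Fin N)), g ≠ 1 → δ ≤ dist z (g • z)) ?_ ?_ ?_ ?_
    · exact ⟨1, one_pos, fun z hz => absurd hz (Set.notMem_empty z)⟩
    · rintro s t hst ⟨δ, hδ, h⟩
      exact ⟨δ, hδ, fun z hz => h z (hst hz)⟩
    · rintro s t ⟨δ, hδ, h⟩ ⟨δ', hδ', h'⟩
      refine ⟨min δ δ', lt_min hδ hδ', fun z hz g hg => ?_⟩
      rcases hz with hz | hz
      · exact (min_le_left _ _).trans (h z hz g hg)
      · exact (min_le_right _ _).trans (h' z hz g hg)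
    · intro y _
      obtain ⟨ε, hε, h⟩ := hdisc y
      refine ⟨Metric.ball y (ε / 4), mem_nhdsWithin_of_mem_nhds
        (Metric.ball_mem_nhds y (by linarith)), ε / 2, by linarith, fun z hz g hg => ?_⟩
      have h1 := h g (fun hc => hg (hfree g y hc))
      rw [Metric.mem_ball] at hz
      have h2 := dist_triangle4 y z (g • z) (g • y)
      rw [A.isometric g z y, dist_comm y z] at h2
      linarith
  obtain ⟨δ, hδ, h⟩ := key
  refine ⟨δ, hδ, fun z g hg => ?_⟩
  obtain ⟨k, y, hy, rfl⟩ := cover A hmin p z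
  have h1 := h y hy (k⁻¹ * g * k) (by
    intro hc
    apply hg
    have : g = k * (k⁻¹ * g * k) * k⁻¹ := by group
    rw [this, hc]
    group)
  rw [← A.isometric k y, ← mul_smul, show k * (k⁻¹ * g * k) = g * k by group, mul_smul] at h1
  exact h1

theorem finite_near (A : FTree N) {δ : ℝ} (hδ : 0 < δ)
    (h : ∀ (z : A.T) (g : FreeGroup (Fin N)), g ≠ 1 → δ ≤ dist z (g • z)) {K : Set A.T}
    (hK : IsCompact K) (z : A.T) :
    {g : FreeGroup (Fin N) | ∃ y ∈ K, dist (g • y) z ≤ δ / 4}.Finite := by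
  have : Nonempty A.T := A.isRTree.nonempty
  obtain ⟨t, _, htf, ht⟩ := hK.finite_cover_balls (show (0 : ℝ) < δ / 8 by linarith)
  have hex : ∀ g ∈ {g : FreeGroup (Fin N) | ∃ y ∈ K, dist (g • y) z ≤ δ / 4},
      ∃ c ∈ t, dist (g⁻¹ • z) c < 3 * δ / 8 := by
    rintro g ⟨y, hy, hyz⟩
    obtain ⟨c, hc⟩ := Set.mem_iUnion.mp (ht hy)
    obtain ⟨hc1, hc2⟩ := Set.mem_iUnion.mp hc
    refine ⟨c, hc1, ?_⟩
    rw [Metric.mem_ball] at hc2
    have h1 := dist_triangle (g⁻¹ • z) y c
    have h2 : dist (g⁻¹ • z) y = dist (g • y) z := by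
      rw [← A.isometric g, smul_inv_smul, dist_comm]
    rw [h2] at h1
    linarith
  choose! c hc hc' using hex
  apply Set.Finite.of_finite_image (f := c) (htf.subset (by
    rintro _ ⟨g, hg, rfl⟩
    exact hc g hg))
  intro g hg g' hg' he
  by_contra hne
  have h1 := hc' g hg
  have h2 := hc' g' hg'
  rw [← he] at h2
  have h3 := dist_triangle_right (g⁻¹ • z) (g'⁻¹ • z) (c g)
  have h4 := h (g⁻¹ • z) (g'⁻¹ * g) (by
    intro hc
    apply hne
    rw [inv_mul_eq_one] at hc
    exact hc.symm)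
  rw [mul_smul, smul_inv_smul] at h4
  linarith

theorem exists_seg_point {T : Type} [MetricSpace T] (hT : IsRTree T) (x y : T) {t : ℝ}
    (h0 : 0 ≤ t) (h1 : t ≤ dist x y) : ∃ z, dist x z = t ∧ dist z y = dist x y - t := by
  obtain ⟨γ, g0, g1, g2⟩ := hT.geodesic x y
  have hd : (0 : ℝ) ≤ dist x y := dist_nonneg
  refine ⟨γ t, ?_, ?_⟩
  · have := g2 0 ⟨le_rfl, hd⟩ _ ⟨h0, h1⟩
    rw [g0, zero_sub, abs_neg, abs_of_nonneg h0] at this
    exact this
  · have := g2 _ ⟨h0, h1⟩ _ ⟨hd, le_rfl⟩
    rw [g1, abs_sub_comm, abs_of_nonneg (by linarith)] at this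
    exact this

theorem proper (A : FTree N) (hA : A.InCV) (p : A.T) (R : ℝ) :
    {g : FreeGroup (Fin N) | dist p (g • p) ≤ R}.Finite := by
  obtain ⟨δ, hδ, h⟩ := uniform A hA
  have hmin := hA.2.1
  have hKc := isCompact_K0 A p
  have hsmul : ∀ g : FreeGroup (Fin N), Continuous fun y : A.T => g • y := by
    intro g
    exact (Isometry.of_dist_eq (A.isometric g)).continuous
  have key : ∀ n : ℕ, {g : FreeGroup (Fin N) | ∃ y ∈ K0 A p,
      dist p (g • y) ≤ n * (δ / 8)}.Finite := by
    intro n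
    induction n with
    | zero =>
      refine (finite_near A hδ h hKc p).subset ?_
      rintro g ⟨y, hy, hd⟩
      refine ⟨y, hy, ?_⟩
      rw [dist_comm]
      have : dist p (g • y) ≤ 0 := by simpa using hd
      linarith
    | succ n ih =>
      set Z : Set A.T := ⋃ g ∈ {g : FreeGroup (Fin N) | ∃ y ∈ K0 A p,
        dist p (g • y) ≤ n * (δ / 8)}, (fun y => g • y) '' (K0 A p) with hZ
      have hZc : IsCompact Z := ih.isCompact_biUnion fun g _ => hKc.image (hsmul g)
      obtain ⟨t, _, htf, ht⟩ := hZc.finite_cover_balls (show (0 : ℝ) < δ / 8 by linarith)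
      have hfin : (⋃ c ∈ t, {g : FreeGroup (Fin N) | ∃ y ∈ K0 A p,
          dist (g • y) c ≤ δ / 4}).Finite := htf.biUnion fun c _ => finite_near A hδ h hKc c
      refine hfin.subset ?_
      rintro g ⟨y, hy, hd⟩
      -- a point z' within distance n δ/8 of p
      obtain ⟨z', hz1, hz2⟩ : ∃ z', dist p z' ≤ n * (δ / 8) ∧ dist z' (g • y) ≤ δ / 8 := by
        by_cases hle : dist p (g • y) ≤ n * (δ / 8)
        · exact ⟨g • y, hle, by rw [dist_self]; linarith⟩
        · obtain ⟨z', h1, h2⟩ := exists_seg_point A.isRTree p (g • y)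
            (t := n * (δ / 8)) (by positivity) (not_le.mp hle).le
          refine ⟨z', h1.le, ?_⟩
          rw [h2]
          push_cast at hd
          linarith
      have hz' : z' ∈ Z := by
        obtain ⟨k, w, hw, he⟩ := cover A hmin p z'
        rw [hZ, Set.mem_iUnion₂]
        refine ⟨k, ⟨w, hw, ?_⟩, w, hw, he.symm⟩
        rw [← he]
        exact hz1
      obtain ⟨c, hc⟩ := Set.mem_iUnion.mp (ht hz')
      obtain ⟨hc1, hc2⟩ := Set.mem_iUnion.mp hc
      rw [Metric.mem_ball] at hc2
      rw [Set.mem_iUnion₂]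
      refine ⟨c, hc1, y, hy, ?_⟩
      have := dist_triangle (g • y) z' c
      rw [dist_comm (g • y) z'] at this
      linarith
  obtain ⟨n, hn⟩ := exists_nat_ge (R / (δ / 8))
  refine (key n).subset ?_
  intro g hg
  refine ⟨p, mem_K0 A p, ?_⟩
  have h1 : R ≤ n * (δ / 8) := by
    rwa [div_le_iff₀ (by linarith)] at hn
  exact le_trans hg h1

end Pool.Agent.H67R3.FSR
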