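import Mathlib
import Pool.Agent.H67R3.FSR.Formula
import Pool.Agent.H67R3.FSR.Family
import Pool.Agent.H67R3.FSR.Current
import Pool.Agent.H67R3.FSR.Proper

set_option autoImplicit false

namespace Pool.Agent.H67R3.FSR

open Pool.Agent.H472R3 MeasureTheory Filter Topology
open scoped ENNReal NNReal

variable {N : ℕ}

/-- The properties of the intersection form which are used: additivity and homogeneity in the
current, continuity in the current for the weak-* topology, and the value on counting currents. -/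
structure IsIntersectionForm (I : FTree N → Current N → ℝ) : Prop where
  add : ∀ A : FTree N, A.InCV → ∀ μ ν : Current N, I A (μ + ν) = I A μ + I A ν
  smul : ∀ A : FTree N, A.InCV → ∀ (c : ℝ≥0) (μ : Current N), I A (c • μ) = c * I A μ
  continuous : ∀ A : FTree N, A.InCV → Continuous (I A)
  counting : ∀ A : FTree N, A.InCV → ∀ (g : FreeGroup (Fin N)) (hg : g ≠ 1),
    I A (eta g hg) = A.len g

theorem len_nonneg (A : FTree N) (g : FreeGroup (Fin N)) : 0 ≤ A.len g := by
  obtain ⟨x⟩ := A.isRTree.nonempty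
  rw [A.len_eq g x]
  exact le_max_left _ _

theorem len_growth (A : FTree N) : ∃ C : ℝ, 0 ≤ C ∧ ∀ g, A.len g ≤ C * g.norm := by
  obtain ⟨x⟩ := A.isRTree.nonempty
  refine ⟨∑ a : Lt N, (lenFn A x).L (lt a), Finset.sum_nonneg fun a _ => L_nonneg _ _, ?_⟩
  set C := ∑ a : Lt N, (lenFn A x).L (lt a) with hC
  have key : ∀ l : List (Lt N), (lenFn A x).L (FreeGroup.mk l) ≤ C * l.length := by
    intro l
    induction l with
    | nil =>
      have : (FreeGroup.mk [] : FreeGroup (Fin N)) = 1 := rfl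
      rw [this, (lenFn A x).one]
      simp
    | cons a l ih =>
      rw [mk_cons]
      have h1 := tri (lenFn A x) (lt a) (FreeGroup.mk l)
      have h2 : (lenFn A x).L (lt a) ≤ C := Finset.single_le_sum
        (f := fun a => (lenFn A x).L (lt a)) (fun a _ => L_nonneg _ _) (Finset.mem_univ a)
      rw [List.length_cons]
      push_cast
      linarith
  intro g
  have h1 := A.le_dist g x
  have h2 := key g.toWord
  rw [FreeGroup.mk_toWord, lenFn_L] at h2
  exact h1.trans h2

section enum

variable (e : ℕ → {g : FreeGroup (Fin N) // g ≠ 1})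

/-- The counting currents, enumerated. -/
noncomputable def etas (n : ℕ) : Current N := eta (e n).1 (e n).2

/-- The weights. -/
noncomputable def wt (n : ℕ) : ℝ :=
  (1 / 2) ^ n / (1 + ((e n).1.norm : ℝ) + ((etas e n).meas (U 1)).toReal)

theorem denom_pos (n : ℕ) : 0 < 1 + ((e n).1.norm : ℝ) + ((etas e n).meas (U 1)).toReal := by
  have h1 : (0 : ℝ) ≤ ((e n).1.norm : ℝ) := Nat.cast_nonneg _
  have h2 : (0 : ℝ) ≤ ((etas e n).meas (U 1)).toReal := ENNReal.toReal_nonneg
  linarith

theorem wt_pos (n : ℕ) : 0 < wt e n := div_pos (by positivity) (denom_pos e n)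

theorem wt_norm_le (n : ℕ) : wt e n * (e n).1.norm ≤ (1 / 2) ^ n := by
  rw [wt, div_mul_eq_mul_div, div_le_iff₀ (denom_pos e n)]
  apply mul_le_mul_of_nonneg_left _ (by positivity)
  have h2 : (0 : ℝ) ≤ ((etas e n).meas (U 1)).toReal := ENNReal.toReal_nonneg
  linarith

theorem wt_meas_le (n : ℕ) : wt e n * ((etas e n).meas (U 1)).toReal ≤ (1 / 2) ^ n := by
  rw [wt, div_mul_eq_mul_div, div_le_iff₀ (denom_pos e n)]
  apply mul_le_mul_of_nonneg_left _ (by positivity)
  have h1 : (0 : ℝ) ≤ ((e n).1.norm : ℝ) := Nat.cast_nonneg _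
  linarith

/-- The coefficients. -/
noncomputable def cf (t : ℝ) (n : ℕ) : ℝ≥0 := Real.toNNReal (wt e n * t ^ n)

theorem cf_coe {t : ℝ} (ht : t ∈ Set.Icc (0 : ℝ) 1) (n : ℕ) : (cf e t n : ℝ) = wt e n * t ^ n :=
  Real.coe_toNNReal _ (mul_nonneg (wt_pos e n).le (pow_nonneg ht.1 n))

theorem cf_sum {t : ℝ} (ht : t ∈ Set.Icc (0 : ℝ) 1) :
    ∑' n, (cf e t n : ℝ≥0∞) * (etas e n).meas (U 1) < ∞ := by
  have hle : ∀ n, (cf e t n : ℝ≥0∞) * (etas e n).meas (U 1) ≤ ENNReal.ofReal ((1 / 2) ^ n) := by
    intro n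
    have hfin : (etas e n).meas (U 1) ≠ ∞ := by
      have := etaMeas_U_lt (e n).2 (1 : FreeGroup (Fin N))
      exact this.ne
    have hc : (cf e t n : ℝ≥0∞) = ENNReal.ofReal (wt e n * t ^ n) := rfl
    rw [hc, ← ENNReal.ofReal_toReal hfin, ← ENNReal.ofReal_mul
      (mul_nonneg (wt_pos e n).le (pow_nonneg ht.1 n))]
    apply ENNReal.ofReal_le_ofReal
    have h1 := wt_meas_le e n
    have h2 : t ^ n ≤ 1 := pow_le_one₀ ht.1 ht.2
    have h3 : (0 : ℝ) ≤ wt e n * ((etas e n).meas (U 1)).toReal :=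
      mul_nonneg (wt_pos e n).le ENNReal.toReal_nonneg
    calc wt e n * t ^ n * ((etas e n).meas (U 1)).toReal
        = (wt e n * ((etas e n).meas (U 1)).toReal) * t ^ n := by ring
      _ ≤ (wt e n * ((etas e n).meas (U 1)).toReal) * 1 := mul_le_mul_of_nonneg_left h2 h3
      _ ≤ (1 / 2) ^ n := by rw [mul_one]; exact h1
  refine lt_of_le_of_lt (ENNReal.tsum_le_tsum hle) ?_
  rw [← ENNReal.ofReal_tsum_of_nonneg (fun n => by positivity) summable_geometric_two]
  exact ENNReal.ofReal_lt_top

open Classical in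
/-- The one parameter family of currents. -/
noncomputable def fam (t : ℝ) : Current N :=
  if ht : t ∈ Set.Icc (0 : ℝ) 1 then sumCurrent (cf e t) (etas e) (cf_sum e ht) else 0

/-- The length function along the enumeration. -/
theorem len_good (A : FTree N) : (fun n => A.len (e n).1) ∈ good (wt e) := by
  rw [mem_good]
  obtain ⟨C, hC, h⟩ := len_growth A
  refine Summable.of_nonneg_of_le (fun n => mul_nonneg (wt_pos e n).le (len_nonneg A _))
    (fun n => ?_) (summable_geometric_two.mul_left C)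
  calc wt e n * A.len (e n).1 ≤ wt e n * (C * (e n).1.norm) :=
        mul_le_mul_of_nonneg_left (h _) (wt_pos e n).le
    _ = C * (wt e n * (e n).1.norm) := by ring
    _ ≤ C * (1 / 2) ^ n := mul_le_mul_of_nonneg_left (wt_norm_le e n) hC

theorem form_fam {I : FTree N → Current N → ℝ} (hI : IsIntersectionForm I) (A : FTree N)
    (hA : A.InCV) {t : ℝ} (ht : t ∈ Set.Icc (0 : ℝ) 1) :
    I A (fam e t) = Lam (wt e) t ⟨fun n => A.len (e n).1, len_good e A⟩ := by
  rw [Lam_apply _ ht, fam, dif_pos ht]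
  have h0 : I A 0 = 0 := by
    have := hI.smul A hA 0 0
    have e0 : (0 : ℝ≥0) • (0 : Current N) = 0 := by
      apply Current.ext
      rw [Current.smul_meas, Current.zero_meas, smul_zero]
    rw [e0, NNReal.coe_zero, zero_mul] at this
    exact this
  have hpart : ∀ n, I A (part (cf e t) (etas e) n) =
      ∑ i ∈ Finset.range n, wt e i * A.len (e i).1 * t ^ i := by
    intro n
    induction n with
    | zero => rw [part, h0, Finset.sum_range_zero]
    | succ n ih =>
      rw [part, hI.add A hA, hI.smul A hA, ih, Finset.sum_range_succ, etas,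
        hI.counting A hA, cf_coe e ht]
      ring
  have h1 : Tendsto (fun n => I A (part (cf e t) (etas e) n)) atTop
      (𝓝 (I A (sumCurrent (cf e t) (etas e) (cf_sum e ht)))) :=
    ((hI.continuous A hA).tendsto _).comp (tendsto_part _ _ _)
  have h2 := (summable_pow (len_good e A) ht).hasSum.tendsto_sum_nat
  refine tendsto_nhds_unique h1 (h2.congr fun n => ?_)
  rw [hpart]

end enum

theorem equiv_countable : Countable (FreeGroup (Fin N) ≃* FreeGroup (Fin N)) := by
  have : Function.Injective (fun (φ : FreeGroup (Fin N) ≃* FreeGroup (Fin N)) (c : Lt N) =>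
      φ (lt c)) := fun φ ψ h => equiv_ext fun c => congrFun h c
  exact this.countable

/-- Finitely many currents determine the length function of a point of Outer space. -/
theorem exists_finite_len (hN : 1 ≤ N) : ∃ S : Finset (Current N), S.card ≤ 8 * N ^ 2 + 4 * N ∧
    ∀ I : FTree N → Current N → ℝ, IsIntersectionForm I → ∀ A B : FTree N, A.InCV → B.InCV →
      (∀ μ ∈ S, I A μ = I B μ) → A.len = B.len := by
  classical
  have hne : Nonempty {g : FreeGroup (Fin N) // g ≠ 1} :=
    ⟨FreeGroup.of ⟨0, hN⟩, FreeGroup.of_ne_one _⟩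
  obtain ⟨e, he⟩ := exists_surjective_nat {g : FreeGroup (Fin N) // g ≠ 1}
  have := equiv_countable (N := N)
  set rs : (FreeGroup (Fin N) → ℝ) →ₗ[ℝ] (ℕ → ℝ) :=
    LinearMap.funLeft ℝ ℝ (fun n => (e n).1) with hrs
  set Tm : (FreeGroup (Fin N) ≃* FreeGroup (Fin N)) × (FreeGroup (Fin N) ≃* FreeGroup (Fin N)) →
      (((Lt N → ℝ) × (Lt N × Lt N → ℝ)) × ((Lt N → ℝ) × (Lt N × Lt N → ℝ))) →ₗ[ℝ] (ℕ → ℝ) :=
    fun j => rs.comp ((Theta j.1).coprod (-Theta j.2)) with hTm
  set W : (FreeGroup (Fin N) ≃* FreeGroup (Fin N)) × (FreeGroup (Fin N) ≃* FreeGroup (Fin N)) →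
      Submodule ℝ (good (wt e)) :=
    fun j => Submodule.comap (good (wt e)).subtype (LinearMap.range (Tm j)) with hW
  have hfr : Module.finrank ℝ
      (((Lt N → ℝ) × (Lt N × Lt N → ℝ)) × ((Lt N → ℝ) × (Lt N × Lt N → ℝ))) =
      8 * N ^ 2 + 4 * N := by
    simp only [Module.finrank_prod, Module.finrank_pi, Fintype.card_prod, Fintype.card_fin,
      Fintype.card_bool]
    ring
  have hinj : ∀ j, ∃ f : W j →ₗ[ℝ] LinearMap.range (Tm j), Function.Injective f := by
    intro j
    refine ⟨(good (wt e)).subtype.restrict (p := W j) (q := LinearMap.range (Tm j))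
      (fun x hx => hx), ?_⟩
    intro x y hxy
    apply Subtype.ext
    apply Subtype.ext
    exact congrArg (fun z : LinearMap.range (Tm j) => z.1) hxy
  obtain ⟨S, hS, hcard, hS'⟩ := choose_family (Lam (wt e)) (Lam_countable (wt e) (wt_pos e))
    (8 * N ^ 2 + 4 * N) _ W
    (fun j => by
      obtain ⟨f, hf⟩ := hinj j
      exact FiniteDimensional.of_injective f hf)
    (fun j => by
      obtain ⟨f, hf⟩ := hinj j
      refine (LinearMap.finrank_le_finrank_of_injective hf).trans ?_
      refine (LinearMap.finrank_range_le (Tm j)).trans ?_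
      rw [hfr])
  refine ⟨S.image (fam e), Finset.card_image_le.trans hcard, ?_⟩
  intro I hI A B hA hB hAB
  obtain ⟨x⟩ := A.isRTree.nonempty
  obtain ⟨y⟩ := B.isRTree.nonempty
  obtain ⟨φ, p, hp⟩ := exists_theta (lenFn A x) (hyperbolic A hA.1 x) (proper A hA x)
  obtain ⟨ψ, q, hq⟩ := exists_theta (lenFn B y) (hyperbolic B hB.1 y) (proper B hB y)
  set a : good (wt e) := ⟨fun n => A.len (e n).1, len_good e A⟩ with ha
  set b : good (wt e) := ⟨fun n => B.len (e n).1, len_good e B⟩ with hb
  have hmem : a - b ∈ W (φ, ψ) := by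
    rw [hW]
    simp only [Submodule.mem_comap]
    refine ⟨(p, q), ?_⟩
    funext n
    rw [hTm]
    simp only [LinearMap.comp_apply, LinearMap.coprod_apply, LinearMap.neg_apply]
    rw [hp, hq, hrs, LinearMap.funLeft_apply]
    change (lenFn A x).L ((e n).1 * (e n).1) - (lenFn A x).L (e n).1 +
      -((lenFn B y).L ((e n).1 * (e n).1) - (lenFn B y).L (e n).1) =
      A.len (e n).1 - B.len (e n).1
    rw [← len_eq' A hA.1 x _ (e n).2, ← len_eq' B hB.1 y _ (e n).2]
    ring
  have hzero : a - b = 0 := by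
    apply hS' (φ, ψ) _ hmem
    intro t ht
    have ht' := Set.Ioo_subset_Icc_self (hS t ht)
    rw [map_sub, ← form_fam e hI A hA ht', ← form_fam e hI B hB ht',
      hAB _ (Finset.mem_image_of_mem _ ht), sub_self]
  have hab : a = b := sub_eq_zero.mp hzero
  funext g
  by_cases hg : g = 1
  · subst hg
    rw [A.len_eq 1 x, B.len_eq 1 y]
    simp
  · obtain ⟨n, hn⟩ := he ⟨g, hg⟩
    have := congrFun (congrArg Subtype.val hab) n
    rw [ha, hb] at this
    simp only [hn] at this
    exact this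

end Pool.Agent.H67R3.FSR
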