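import Mathlib
import Pool.Agent.H67R3.FSR.Proper

set_option autoImplicit false

/-!
# A minimal tree is determined by a based length function
-/

namespace Pool.Agent.H67R3.FSR

open Pool.Agent.H472R3

variable {N : ℕ}

/-- Distance to a point of a segment. -/
theorem dist_seg {T : Type} [MetricSpace T] (hT : IsRTree T) {P Q u : T} (h : u ∈ seg P Q) (R : T) :
    dist u R = max (dist P R - dist P u) (dist Q R - dist u Q) := by
  rw [mem_seg] at h
  apply le_antisymm
  · have h4 := hT.zeroHyperbolic u R P Q
    rw [le_max_iff] at h4 ⊢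
    rw [dist_comm u P, dist_comm R Q, dist_comm R P] at h4
    rcases h4 with h1 | h1
    · right; linarith
    · left; linarith
  · apply max_le
    · linarith [dist_triangle P u R]
    · have := dist_triangle Q u R
      rw [dist_comm Q u] at this
      linarith

/-- `v` is seen from the orbit of `y` as `u` is seen from the orbit of `x`. -/
def Match (A B : FTree N) (x : A.T) (y : B.T) (u : A.T) (v : B.T) : Prop :=
  ∀ h : FreeGroup (Fin N), dist v (h • y) = dist u (h • x)

variable {A B : FTree N} {x : A.T} {y : B.T}

theorem Match.symm {u : A.T} {v : B.T} (h : Match A B x y u v) : Match B A y x v u :=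
  fun k => (h k).symm

theorem dist_orbit (hxy : ∀ g : FreeGroup (Fin N), dist x (g • x) = dist y (g • y))
    (g h : FreeGroup (Fin N)) : dist (g • x) (h • x) = dist (g • y) (h • y) := by
  have e1 : dist (g • x) (h • x) = dist x ((g⁻¹ * h) • x) := by
    rw [← A.isometric g x, mul_smul, smul_inv_smul]
  have e2 : dist (g • y) (h • y) = dist y ((g⁻¹ * h) • y) := by
    rw [← B.isometric g y, mul_smul, smul_inv_smul]
  rw [e1, e2, hxy]

theorem exists_match (hA : A.Minimal)
    (hxy : ∀ g : FreeGroup (Fin N), dist x (g • x) = dist y (g • y)) (u : A.T) :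
    ∃ v : B.T, Match A B x y u v := by
  obtain ⟨g, hg⟩ := exists_seg A hA x u
  have hg' := hg
  rw [mem_seg] at hg'
  have h1 : dist x u ≤ dist y (g • y) := by
    rw [← hxy]
    linarith [@dist_nonneg _ _ u (g • x)]
  obtain ⟨v, hv1, hv2⟩ := exists_seg_point B.isRTree y (g • y) (@dist_nonneg _ _ x u) h1
  have hv : v ∈ seg y (g • y) := by
    rw [mem_seg, hv1, hv2]
    ring
  refine ⟨v, fun h => ?_⟩
  rw [dist_seg A.isRTree hg, dist_seg B.isRTree hv, hv1, hv2, hxy h, dist_orbit hxy g h]
  have : dist u (g • x) = dist y (g • y) - dist x u := by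
    rw [← hxy g]
    linarith
  rw [this]

theorem match_unique (hB : B.Minimal) {u : A.T} {v v' : B.T} (h : Match A B x y u v)
    (h' : Match A B x y u v') : v = v' := by
  obtain ⟨g, hg⟩ := exists_seg B hB y v
  rw [mem_seg] at hg
  have e1 : dist v' y = dist v y := by
    have a1 := h 1
    have a2 := h' 1
    rw [one_smul] at a1 a2
    rw [a1, a2]
  have e2 : dist v' (g • y) = dist v (g • y) := by rw [h g, h' g]
  have h4 := B.isRTree.zeroHyperbolic v v' y (g • y)
  rw [e1, e2, max_eq_left (by linarith)] at h4
  rw [dist_comm y v] at hg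
  rw [← dist_le_zero]
  linarith

theorem match_dist (hA : A.Minimal)
    (hxy : ∀ g : FreeGroup (Fin N), dist x (g • x) = dist y (g • y)) {u u' : A.T} {v v' : B.T}
    (h : Match A B x y u v) (h' : Match A B x y u' v') : dist v v' = dist u u' := by
  obtain ⟨g, hg⟩ := exists_seg A hA x u
  have h1 := h 1
  have h1' := h' 1
  rw [one_smul, one_smul] at h1 h1'
  have hg' := hg
  rw [mem_seg] at hg'
  have hv : v ∈ seg y (g • y) := by
    rw [mem_seg, dist_comm y v, h1, h g, dist_comm u x, hg', hxy]
  rw [dist_seg A.isRTree hg, dist_seg B.isRTree hv, dist_comm y v', dist_comm y v,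
    dist_comm (g • y) v', h1, h1', h g, h' g, dist_comm x u', dist_comm x u,
    dist_comm (g • x) u']

/-- A minimal tree is determined by a based length function. -/
theorem same_of_based (hA : A.Minimal) (hB : B.Minimal)
    (hxy : ∀ g : FreeGroup (Fin N), dist x (g • x) = dist y (g • y)) : A.Same B := by
  choose f hf using exists_match (B := B) (x := x) (y := y) hA hxy
  have hiso : Isometry f := Isometry.of_dist_eq fun u u' => match_dist hA hxy (hf u) (hf u')
  have hsurj : Function.Surjective f := by
    intro v
    obtain ⟨u, hu⟩ := exists_match (B := A) (x := y) (y := x) hB (fun g => (hxy g).symm) v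
    exact ⟨u, match_unique hB (hf u) hu.symm⟩
  refine ⟨IsometryEquiv.mk (Equiv.ofBijective f ⟨hiso.injective, hsurj⟩) hiso, ?_⟩
  intro g u
  change f (g • u) = g • f u
  refine match_unique (x := x) (y := y) hB (hf (g • u)) ?_
  intro h
  have e1 : dist (g • f u) (h • y) = dist (f u) ((g⁻¹ * h) • y) := by
    rw [← B.isometric g (f u), mul_smul, smul_inv_smul]
  have e2 : dist (g • u) (h • x) = dist u ((g⁻¹ * h) • x) := by
    rw [← A.isometric g u, mul_smul, smul_inv_smul]
  rw [e1, e2, hf u]

end Pool.Agent.H67R3.FSR
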