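import Mathlib
import Pool.Agent.H67R3.FSR.Recon

set_option autoImplicit false

/-!
# Recovering a based length function from translation lengths
-/

namespace Pool.Agent.H67R3.FSR

open Pool.Agent.H472R3

variable {N : ℕ}

section perp

variable (ℓ : LenFn N)

theorem L_mul (g h : FreeGroup (Fin N)) : ℓ.L (g * h) = ℓ.L g + ℓ.L h - 2 * G ℓ g⁻¹ h := by
  unfold G
  rw [inv_inv, ℓ.inv]
  ring

theorem L_mul_perp {g h : FreeGroup (Fin N)} (hp : G ℓ g⁻¹ h = 0) :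
    ℓ.L (g * h) = ℓ.L g + ℓ.L h := by
  rw [L_mul, hp]
  ring

theorem perp_of_lt {g h k : FreeGroup (Fin N)} (h1 : G ℓ g h = 0) (h2 : 0 < G ℓ h k) :
    G ℓ g k = 0 := by
  rw [← h1]
  apply G_iso
  rw [h1]
  exact h2

/-- The initial direction of a product. -/
theorem perp_mul_left {g h k : FreeGroup (Fin N)} (hp : G ℓ g⁻¹ h = 0) (hg : 0 < ℓ.L g)
    (hk : G ℓ g k = 0) : G ℓ (g * h) k = 0 := by
  have h1 : G ℓ g (g * h) = ℓ.L g := by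
    unfold G
    rw [inv_mul_cancel_left, L_mul_perp ℓ hp]
    ring
  rw [G_comm]
  apply perp_of_lt ℓ (h := g)
  · rw [G_comm]; exact hk
  · rw [h1]; exact hg

/-- The final direction of a product. -/
theorem perp_mul_right {g h k : FreeGroup (Fin N)} (hp : G ℓ g⁻¹ h = 0) (hh : 0 < ℓ.L h)
    (hk : G ℓ h⁻¹ k = 0) : G ℓ (g * h)⁻¹ k = 0 := by
  rw [mul_inv_rev]
  apply perp_mul_left ℓ
  · rw [inv_inv, G_comm]; exact hp
  · rw [ℓ.inv]; exact hh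
  · exact hk

end perp

/-- The axes of `a` and of its neighbours meet exactly in the base point. -/
structure Good (ℓ : LenFn N) (a b : FreeGroup (Fin N)) : Prop where
  aa : G ℓ a⁻¹ a = 0
  ab : G ℓ a b = 0
  ab' : G ℓ a b⁻¹ = 0
  a'b : G ℓ a⁻¹ b = 0
  a'b' : G ℓ a⁻¹ b⁻¹ = 0

section rec

variable {ℓ : LenFn N} (hhyp : ∀ g, g ≠ 1 → ℓ.L g < ℓ.L (g * g)) {a b : FreeGroup (Fin N)}

include hhyp

theorem L_pos {g : FreeGroup (Fin N)} (hg : g ≠ 1) : 0 < ℓ.L g := by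
  have h1 := hhyp g hg
  have h2 := tri ℓ g g
  linarith

/-- The chosen set of axes avoids every direction. -/
theorem exists_avoid (hG : Good ℓ a b) (ha : a ≠ 1) (hb : b ≠ 1) (w : FreeGroup (Fin N)) :
    ∃ c ∈ ({a, a * b, a⁻¹ * b} : Set (FreeGroup (Fin N))), G ℓ c w = 0 ∧ G ℓ c⁻¹ w = 0 := by
  have hLa : 0 < ℓ.L a := L_pos hhyp ha
  have hLb : 0 < ℓ.L b := L_pos hhyp hb
  have hLa' : 0 < ℓ.L a⁻¹ := by rw [ℓ.inv]; exact hLa
  by_cases h1 : 0 < G ℓ a w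
  · refine ⟨a⁻¹ * b, by simp, ?_, ?_⟩
    · apply perp_mul_left ℓ (by rw [inv_inv]; exact hG.ab) hLa'
      exact perp_of_lt ℓ hG.aa h1
    · apply perp_mul_right ℓ (by rw [inv_inv]; exact hG.ab) hLb
      apply perp_of_lt ℓ (h := a) _ h1
      rw [G_comm]; exact hG.ab'
  · have h1' : G ℓ a w = 0 := le_antisymm (not_lt.mp h1) (G_nonneg ℓ _ _)
    by_cases h2 : 0 < G ℓ a⁻¹ w
    · refine ⟨a * b, by simp, ?_, ?_⟩
      · exact perp_mul_left ℓ hG.a'b hLa h1'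
      · apply perp_mul_right ℓ hG.a'b hLb
        apply perp_of_lt ℓ (h := a⁻¹) _ h2
        rw [G_comm]; exact hG.a'b'
    · have h2' : G ℓ a⁻¹ w = 0 := le_antisymm (not_lt.mp h2) (G_nonneg ℓ _ _)
      exact ⟨a, by simp, h1', h2'⟩

theorem axis_of_mem (hG : Good ℓ a b) (ha : a ≠ 1) (hb : b ≠ 1) {c : FreeGroup (Fin N)}
    (hc : c ∈ ({a, a * b, a⁻¹ * b} : Set (FreeGroup (Fin N)))) :
    G ℓ c⁻¹ c = 0 ∧ 0 < ℓ.L c := by
  have hLa : 0 < ℓ.L a := L_pos hhyp ha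
  have hLb : 0 < ℓ.L b := L_pos hhyp hb
  have hLa' : 0 < ℓ.L a⁻¹ := by rw [ℓ.inv]; exact hLa
  rcases hc with rfl | rfl | rfl
  · exact ⟨hG.aa, hLa⟩
  · refine ⟨?_, ?_⟩
    · apply perp_mul_right ℓ hG.a'b hLb
      rw [G_comm]
      exact perp_mul_left ℓ hG.a'b hLa hG.ab'
    · rw [L_mul_perp ℓ hG.a'b]; linarith
  · have hp : G ℓ (a⁻¹)⁻¹ b = 0 := by rw [inv_inv]; exact hG.ab
    refine ⟨?_, ?_⟩
    · apply perp_mul_right ℓ hp hLb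
      rw [G_comm]
      exact perp_mul_left ℓ hp hLa' hG.a'b'
    · rw [L_mul_perp ℓ hp]; linarith

/-- The translation length in terms of the based length function. -/
theorem len_of_axis {c : FreeGroup (Fin N)} (hc : G ℓ c⁻¹ c = 0) :
    ℓ.L (c * c) - ℓ.L c = ℓ.L c := by
  rw [L_mul_perp ℓ hc]
  ring

theorem upper {c d : FreeGroup (Fin N)} (w : FreeGroup (Fin N))
    (hc : G ℓ c⁻¹ c = 0) (hd : G ℓ d⁻¹ d = 0) :
    (ℓ.L ((c * w * d * w⁻¹) * (c * w * d * w⁻¹)) - ℓ.L (c * w * d * w⁻¹)) -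
      (ℓ.L (c * c) - ℓ.L c) - (ℓ.L (d * d) - ℓ.L d) ≤ 2 * ℓ.L w := by
  rw [len_of_axis hhyp hc, len_of_axis hhyp hd]
  have h1 := tri ℓ (c * w * d * w⁻¹) (c * w * d * w⁻¹)
  have h2 := tri ℓ (c * w * d) w⁻¹
  have h3 := tri ℓ (c * w) d
  have h4 := tri ℓ c w
  rw [ℓ.inv] at h2
  linarith

theorem lower (hG : Good ℓ a b) (ha : a ≠ 1) (hb : b ≠ 1) {w : FreeGroup (Fin N)} (hw : w ≠ 1) :
    ∃ c ∈ ({a, a * b, a⁻¹ * b} : Set (FreeGroup (Fin N))),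
      ∃ d ∈ ({a, a * b, a⁻¹ * b} : Set (FreeGroup (Fin N))),
      (ℓ.L ((c * w * d * w⁻¹) * (c * w * d * w⁻¹)) - ℓ.L (c * w * d * w⁻¹)) -
        (ℓ.L (c * c) - ℓ.L c) - (ℓ.L (d * d) - ℓ.L d) = 2 * ℓ.L w := by
  obtain ⟨c, hc, hc1, hc2⟩ := exists_avoid hhyp hG ha hb w
  obtain ⟨d, hd, hd1, hd2⟩ := exists_avoid hhyp hG ha hb w⁻¹
  obtain ⟨hcc, hLc⟩ := axis_of_mem hhyp hG ha hb hc
  obtain ⟨hdd, hLd⟩ := axis_of_mem hhyp hG ha hb hd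
  refine ⟨c, hc, d, hd, ?_⟩
  have hLw : 0 < ℓ.L w := L_pos hhyp hw
  have hLw' : 0 < ℓ.L w⁻¹ := by rw [ℓ.inv]; exact hLw
  -- the product path
  have p1 : G ℓ (c * w)⁻¹ d = 0 := by
    apply perp_mul_right ℓ hc2 hLw
    rw [G_comm]; exact hd1
  have l1 : ℓ.L (c * w) = ℓ.L c + ℓ.L w := L_mul_perp ℓ hc2
  have l2 : ℓ.L (c * w * d) = ℓ.L c + ℓ.L w + ℓ.L d := by rw [L_mul_perp ℓ p1, l1]
  have p2 : G ℓ (c * w * d)⁻¹ w⁻¹ = 0 := perp_mul_right ℓ p1 hLd hd2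
  have l3 : ℓ.L (c * w * d * w⁻¹) = ℓ.L c + ℓ.L w + ℓ.L d + ℓ.L w := by
    rw [L_mul_perp ℓ p2, l2, ℓ.inv]
  have q1 : G ℓ (c * w) w = 0 := perp_mul_left ℓ hc2 hLc hc1
  have q2 : G ℓ (c * w * d) w = 0 := perp_mul_left ℓ p1 (by rw [l1]; linarith) q1
  have q3 : G ℓ (c * w * d * w⁻¹) w = 0 := perp_mul_left ℓ p2 (by rw [l2]; linarith) q2
  have p3 : G ℓ (c * w * d * w⁻¹)⁻¹ (c * w * d * w⁻¹) = 0 := by
    apply perp_mul_right ℓ p2 hLw'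
    rw [inv_inv, G_comm]
    exact q3
  rw [len_of_axis hhyp hcc, len_of_axis hhyp hdd, len_of_axis hhyp p3, l3]
  ring

end rec

/-- Two based length functions with the same translation lengths and the same good pair agree. -/
theorem based_le {ℓ ℓ' : LenFn N} (h1 : ∀ g, g ≠ 1 → ℓ.L g < ℓ.L (g * g))
    (h2 : ∀ g, g ≠ 1 → ℓ'.L g < ℓ'.L (g * g))
    (h3 : ∀ g, g ≠ 1 → ℓ.L (g * g) - ℓ.L g = ℓ'.L (g * g) - ℓ'.L g)
    {a b : FreeGroup (Fin N)} (ha : a ≠ 1) (hb : b ≠ 1) (hG : Good ℓ a b) (hG' : Good ℓ' a b)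
    (w : FreeGroup (Fin N)) : ℓ.L w ≤ ℓ'.L w := by
  by_cases hw : w = 1
  · subst hw
    rw [ℓ.one, ℓ'.one]
  · obtain ⟨c, hc, d, hd, he⟩ := lower h1 hG ha hb hw
    obtain ⟨hcc, hLc⟩ := axis_of_mem h1 hG ha hb hc
    obtain ⟨hdd, hLd⟩ := axis_of_mem h1 hG ha hb hd
    obtain ⟨hcc', hLc'⟩ := axis_of_mem h2 hG' ha hb hc
    obtain ⟨hdd', hLd'⟩ := axis_of_mem h2 hG' ha hb hd
    have hc1 : c ≠ 1 := by
      rintro rfl
      rw [ℓ.one] at hLc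
      exact lt_irrefl _ hLc
    have hd1 : d ≠ 1 := by
      rintro rfl
      rw [ℓ.one] at hLd
      exact lt_irrefl _ hLd
    have hu1 : c * w * d * w⁻¹ ≠ 1 := by
      intro hu
      rw [hu, mul_one, ℓ.one, len_of_axis h1 hcc, len_of_axis h1 hdd] at he
      have := L_nonneg ℓ w
      linarith
    have := upper h2 w hcc' hdd'
    rw [← h3 _ hu1, ← h3 _ hc1, ← h3 _ hd1, he] at this
    linarith

end Pool.Agent.H67R3.FSR
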