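import Mathlib
import Pool.Agent.H67R3.FSR.Axes
import Pool.Agent.H67R3.FSR.Formula

set_option autoImplicit false

/-!
# Existence of good points
-/

namespace Pool.Agent.H67R3.FSR

open Pool.Agent.H472R3

variable {N : ℕ}

/-- Gromov product in a metric space. -/
noncomputable def gpT {T : Type} [MetricSpace T] (x u v : T) : ℝ :=
  (dist x u + dist x v - dist u v) / 2

theorem gpT_comm {T : Type} [MetricSpace T] (x u v : T) : gpT x u v = gpT x v u := by
  unfold gpT
  rw [dist_comm u v]
  ring

theorem gpT_nonneg {T : Type} [MetricSpace T] (x u v : T) : 0 ≤ gpT x u v := by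
  unfold gpT
  have := dist_triangle u x v
  rw [dist_comm u x] at this
  linarith

theorem gpT_um {T : Type} [MetricSpace T] (hT : IsRTree T) (x u w v : T) :
    min (gpT x u w) (gpT x w v) ≤ gpT x u v := by
  unfold gpT
  have h4 := hT.zeroHyperbolic x w u v
  rw [le_max_iff] at h4
  rw [min_le_iff]
  rw [dist_comm w u] at h4
  rcases h4 with h | h
  · right; linarith
  · left; linarith

theorem gpT_zero {T : Type} [MetricSpace T] (hT : IsRTree T) {x u w v : T}
    (h1 : gpT x u w = 0) (h2 : 0 < gpT x w v) : gpT x u v = 0 := by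
  apply le_antisymm _ (gpT_nonneg _ _ _)
  by_contra hc
  have h3 := gpT_um hT x u v w
  rw [h1, gpT_comm x v w] at h3
  have := lt_min (not_le.mp hc) h2
  linarith

theorem G_lenFn (A : FTree N) (x : A.T) (g h : FreeGroup (Fin N)) :
    G (lenFn A x) g h = gpT x (g • x) (h • x) := by
  unfold G gpT
  rw [lenFn_L, lenFn_L, lenFn_L]
  have : dist x ((g⁻¹ * h) • x) = dist (g • x) (h • x) := by
    rw [← A.isometric g x, mul_smul, smul_inv_smul]
  rw [this]

theorem dist_inv_smul (A : FTree N) (g : FreeGroup (Fin N)) (x : A.T) :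
    dist x (g⁻¹ • x) = dist x (g • x) := by
  rw [← A.isometric g x, smul_inv_smul, dist_comm]

theorem exists_axis (A : FTree N) (g : FreeGroup (Fin N)) : ∃ x : A.T, dist x (g • x) = A.len g := by
  obtain ⟨x⟩ := A.isRTree.nonempty
  obtain ⟨m, hm⟩ := exists_disp A g x
  exact ⟨m, by rw [hm, A.len_eq g x]⟩

/-- The nearest point projection to an axis. -/
theorem nearest (A : FTree N) (a : FreeGroup (Fin N)) {y : A.T} (hy : dist y (a • y) = A.len a)
    (z : A.T) : ∃ x ∈ seg y z, dist x (a • x) = A.len a ∧ gpT x z (a • x) = 0 ∧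
      gpT x z (a⁻¹ • x) = 0 := by
  have hcont : Continuous fun q : A.T => dist q (a • q) := by
    exact continuous_id.dist (Isometry.of_dist_eq (A.isometric a)).continuous
  have hcl : IsClosed {q : A.T | dist q (a • q) = A.len a} :=
    isClosed_eq hcont continuous_const
  have hc : IsCompact (seg y z ∩ {q : A.T | dist q (a • q) = A.len a}) :=
    (isCompact_seg A.isRTree y z).inter_right hcl
  obtain ⟨x, ⟨hx1, hx2⟩, hx3⟩ := hc.exists_isMinOn ⟨y, left_mem_seg _ _, hy⟩
    (f := fun q => dist q z) (continuous_id.dist continuous_const).continuousOn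
  have hx2' : dist x (a • x) = A.len a := hx2
  -- the key claim
  have claim : ∀ c : A.T, (∀ q : A.T, dist x q = gpT x z c → dist q c = dist x c - gpT x z c →
      dist q (a • q) ≤ A.len a) → gpT x z c = 0 := by
    intro c hq
    apply le_antisymm _ (gpT_nonneg _ _ _)
    by_contra hpos
    set r := gpT x z c with hr
    have hr1 : r ≤ dist x z := by
      rw [hr]
      unfold gpT
      have := dist_triangle x z c
      linarith
    obtain ⟨q, q1, q2⟩ := exists_seg_point A.isRTree x z (gpT_nonneg x z c) hr1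
    have q3 : q ∈ seg x z := by
      rw [mem_seg, q1, q2]; ring
    have q4 : dist q c = dist x c - r := by
      rw [dist_seg A.isRTree q3 c, q1, q2]
      have : dist z c = dist x z + dist x c - 2 * r := by
        rw [hr]
        unfold gpT
        ring
      rw [this, max_eq_left]
      rw [← hr]
      linarith
    have q5 := hq q q1 q4
    have q6 : dist q (a • q) = A.len a := le_antisymm q5 (A.le_dist a q)
    have q7 : q ∈ seg y z := by
      rw [mem_seg] at hx1 q3 ⊢
      have t1 := dist_triangle y x q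
      have t2 := dist_triangle y q z
      linarith
    have q8 := hx3 ⟨q7, q6⟩
    simp only [Set.mem_ofPred_eq] at q8
    rw [q2, ← hr] at q8
    linarith
  refine ⟨x, hx1, hx2', claim _ ?_, claim _ ?_⟩
  · intro q h1 h2
    have t1 := dist_triangle q (a • x) (a • q)
    rw [A.isometric a x q, h1, h2] at t1
    rw [← hx2']
    linarith
  · intro q h1 h2
    have t1 := dist_triangle (a⁻¹ • q) (a⁻¹ • x) q
    rw [A.isometric a⁻¹ q x, dist_comm q x, h1, dist_comm (a⁻¹ • x) q, h2] at t1
    have e1 : dist (a⁻¹ • q) q = dist q (a • q) := by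
      rw [← A.isometric a (a⁻¹ • q) q, smul_inv_smul]
    rw [e1, dist_inv_smul] at t1
    rw [← hx2']
    linarith

/-- If the axes of `a` and `b` are disjoint there is a good point. -/
theorem exists_good (A : FTree N) (hA : A.Free) {a b : FreeGroup (Fin N)} (ha : a ≠ 1)
    (hb : b ≠ 1) (hab : A.len a + A.len b < A.len (a * b)) :
    ∃ x : A.T, Good (lenFn A x) a b := by
  have hT := A.isRTree
  obtain ⟨y, hy⟩ := exists_axis A a
  obtain ⟨z0, hz0⟩ := exists_axis A b
  obtain ⟨x, hx1, hx2, hx3, hx4⟩ := nearest A a hy z0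
  obtain ⟨z, hz1, hz2, hz3, hz4⟩ := nearest A b hz0 x
  have hδ : 0 < dist x z := by
    rw [dist_pos]
    rintro rfl
    have h1 := A.le_dist (a * b) x
    have h2 := dist_triangle x (a • x) ((a * b) • x)
    rw [mul_smul, A.isometric a x (b • x), hx2, hz2] at h2
    rw [mul_smul] at h1
    linarith
  have hlb : 0 < A.len b := len_pos A hA b hb
  rw [mem_seg] at hz1
  have hz5 : gpT x z0 z = dist x z := by
    unfold gpT
    rw [dist_comm x z0, ← hz1, dist_comm z x]
    ring
  have k1 : gpT x (a • x) z = 0 := gpT_zero hT (w := z0) (by rw [gpT_comm]; exact hx3)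
    (by rw [hz5]; exact hδ)
  have k2 : gpT x (a⁻¹ • x) z = 0 := gpT_zero hT (w := z0) (by rw [gpT_comm]; exact hx4)
    (by rw [hz5]; exact hδ)
  have k3 : ∀ β : FreeGroup (Fin N), dist z (β • z) = A.len b → gpT z x (β • z) = 0 →
      gpT z x (β⁻¹ • z) = 0 → 0 < gpT x z (β • x) := by
    intro β h1 h2 h3
    have e1 : dist x (β • z) = dist x z + A.len b := by
      have : dist x (β • z) = dist z x + dist z (β • z) - 2 * gpT z x (β • z) := by
        unfold gpT; ring
      rw [this, h1, h2, dist_comm z x]; ring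
    have e2 : gpT (β • z) (β • x) z = 0 := by
      have : gpT (β • z) (β • x) z = gpT z x (β⁻¹ • z) := by
        unfold gpT
        rw [← A.isometric β z x, ← A.isometric β z (β⁻¹ • z), ← A.isometric β x (β⁻¹ • z),
          smul_inv_smul]
      rw [this, h3]
    have e3 : dist (β • x) z = dist x z + A.len b := by
      have : dist (β • x) z = dist (β • z) (β • x) + dist (β • z) z -
          2 * gpT (β • z) (β • x) z := by
        unfold gpT; ring
      rw [this, e2, A.isometric, dist_comm (β • z) z, h1, dist_comm z x]; ring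
    have e4 : gpT (β • z) z x = A.len b := by
      unfold gpT
      rw [dist_comm (β • z) x, e1, dist_comm (β • z) z, h1, dist_comm z x]
      ring
    have e5 : gpT (β • z) (β • x) x = 0 := gpT_zero hT e2 (by rw [e4]; exact hlb)
    have e6 : dist x (β • x) = 2 * dist x z + A.len b := by
      have : dist x (β • x) = dist (β • z) (β • x) + dist (β • z) x -
          2 * gpT (β • z) (β • x) x := by
        unfold gpT
        rw [dist_comm x (β • x)]
        ring
      rw [this, e5, A.isometric, dist_comm (β • z) x, e1, dist_comm z x]; ring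
    unfold gpT
    rw [e6, dist_comm z, e3]
    linarith
  have k4 := k3 b hz2 hz3 hz4
  have k5 := k3 b⁻¹ (by rw [dist_inv_smul, hz2]) hz4 (by rw [inv_inv]; exact hz3)
  refine ⟨x, ?_, ?_, ?_, ?_, ?_⟩
  · have h1 := len_eq' A hA x a ha
    have h2 : (lenFn A x).L a = A.len a := hx2
    unfold G
    rw [inv_inv, (lenFn A x).inv]
    linarith
  · rw [G_lenFn]; exact gpT_zero hT k1 k4
  · rw [G_lenFn]; exact gpT_zero hT k1 k5
  · rw [G_lenFn]; exact gpT_zero hT k2 k4
  · rw [G_lenFn]; exact gpT_zero hT k2 k5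

theorem len_conj (A : FTree N) (k h : FreeGroup (Fin N)) : A.len (k * h * k⁻¹) = A.len h := by
  obtain ⟨x⟩ := A.isRTree.nonempty
  rw [A.len_eq _ (k • x), A.len_eq h x, ← mul_smul, ← mul_smul, ← mul_smul]
  rw [show k * h * k⁻¹ * k = k * h by group,
    show k * h * k⁻¹ * (k * h * k⁻¹) * k = k * (h * h) by group,
    mul_smul, mul_smul k h x, A.isometric, A.isometric, mul_smul]

theorem Q_cons (p : (Lt N → ℝ) × (Lt N × Lt N → ℝ)) (c d : Lt N) (l : List (Lt N)) :
    Q p (c :: d :: l) = p.1 c - 2 * p.2 (c, d) + Q p (d :: l) := rfl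

theorem Q_append (p : (Lt N → ℝ) × (Lt N × Lt N → ℝ)) (z a : Lt N) (l2 : List (Lt N)) :
    ∀ l1 : List (Lt N), Q p ((l1 ++ [z]) ++ (a :: l2)) =
      Q p (l1 ++ [z]) + Q p (a :: l2) - 2 * p.2 (z, a)
  | [] => by
    simp only [List.nil_append, List.singleton_append]
    rw [Q_cons]
    have : Q p [z] = p.1 z := rfl
    rw [this]; ring
  | [c] => by
    simp only [List.cons_append, List.nil_append]
    rw [Q_cons, Q_cons, Q_cons]
    have : Q p [z] = p.1 z := rfl
    rw [this]; ring
  | c :: d :: l1 => by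
    have ih := Q_append p z a l2 (d :: l1)
    simp only [List.cons_append] at ih ⊢
    rw [Q_cons, Q_cons, ih]
    ring

theorem reduced_append {l1 l2 : List (Lt N)} (h1 : FreeGroup.IsReduced l1)
    (h2 : FreeGroup.IsReduced l2)
    (h : ∀ x ∈ l1.getLast?, ∀ y ∈ l2.head?, x.1 ≠ y.1) : FreeGroup.IsReduced (l1 ++ l2) := by
  unfold FreeGroup.IsReduced at h1 h2 ⊢
  rw [List.isChain_append]
  exact ⟨h1, h2, fun x hx y hy he => absurd he (h x hx y hy)⟩

theorem reduced_replicate (n : ℕ) (x : Lt N) : FreeGroup.IsReduced (List.replicate n x) := by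
  unfold FreeGroup.IsReduced
  exact List.isChain_replicate_of_rel _ (fun _ => rfl)

/-- The words `x (y ^ m) x (y ^ (-m))`. -/
def Wd (i j : Fin N) (m : ℕ) : List (Lt N) :=
  ([(i, true)] ++ List.replicate (m + 1) (j, true)) ++
    ([(i, true)] ++ List.replicate (m + 1) (j, false))

theorem block_last (i j : Fin N) (m : ℕ) (s : Bool) :
    ([(i, true)] ++ List.replicate (m + 1) ((j, s) : Lt N)).getLast? = some (j, s) := by
  rw [List.replicate_succ', ← List.append_assoc, List.getLast?_concat]

theorem block_reduced {i j : Fin N} (hij : i ≠ j) (m : ℕ) (s : Bool) :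
    FreeGroup.IsReduced ([(i, true)] ++ List.replicate (m + 1) ((j, s) : Lt N)) := by
  apply reduced_append
  · simp
  · exact reduced_replicate _ _
  · simp [List.replicate_succ, hij]

theorem Wd_reduced {i j : Fin N} (hij : i ≠ j) (m : ℕ) : FreeGroup.IsReduced (Wd i j m) := by
  unfold Wd
  apply reduced_append (block_reduced hij m _) (block_reduced hij m _)
  intro x hx y hy
  rw [block_last] at hx
  simp only [Option.mem_def, Option.some.injEq] at hx
  subst hx
  simp only [List.singleton_append, List.head?_cons, Option.mem_def, Option.some.injEq] at hy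
  subst hy
  exact hij.symm

theorem Wd_reduced2 {i j : Fin N} (hij : i ≠ j) (m : ℕ) :
    FreeGroup.IsReduced (Wd i j m ++ Wd i j m) := by
  apply reduced_append (Wd_reduced hij m) (Wd_reduced hij m)
  intro x hx y hy
  have h1 : (Wd i j m).getLast? = some (j, false) := by
    unfold Wd
    rw [List.getLast?_append, block_last]
    rfl
  rw [h1] at hx
  simp only [Option.mem_def, Option.some.injEq] at hx
  subst hx
  unfold Wd at hy
  simp only [List.singleton_append, List.cons_append, List.head?_cons, Option.mem_def,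
    Option.some.injEq] at hy
  subst hy
  exact hij.symm

theorem lt_pow (a : Lt N) (n : ℕ) :
    (FreeGroup.mk (List.replicate n a) : FreeGroup (Fin N)) = lt a ^ n := by
  induction n with
  | zero => rfl
  | succ n ih => rw [List.replicate_succ, mk_cons, ih, pow_succ']

theorem Wd_mk (i j : Fin N) (m : ℕ) : (FreeGroup.mk (Wd i j m) : FreeGroup (Fin N)) =
    lt (i, true) * (lt (j, true) ^ (m + 1) * lt (i, true) * (lt (j, true) ^ (m + 1))⁻¹) := by
  unfold Wd
  rw [← FreeGroup.mul_mk, ← FreeGroup.mul_mk, ← FreeGroup.mul_mk, lt_pow, lt_pow]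
  have : (lt (j, false) : FreeGroup (Fin N)) = (lt (j, true))⁻¹ := lt_inv' (j, true)
  rw [this, inv_pow]
  change lt (i, true) * _ * (lt (i, true) * _) = _
  group

theorem Wd_length (i j : Fin N) (m : ℕ) : (Wd i j m).length = 2 * m + 4 := by
  unfold Wd
  simp only [List.length_append, List.length_cons, List.length_nil, List.length_replicate]
  ring

theorem Wd_last (i j : Fin N) (m : ℕ) : ∃ l, Wd i j m = l ++ [(j, false)] := by
  refine ⟨([(i, true)] ++ List.replicate (m + 1) (j, true)) ++
    ([(i, true)] ++ List.replicate m (j, false)), ?_⟩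
  unfold Wd
  rw [List.replicate_succ' (n := m) (a := ((j, false) : Lt N))]
  simp only [List.append_assoc]

theorem Wd_head (i j : Fin N) (m : ℕ) : ∃ l, Wd i j m = (i, true) :: l := ⟨_, rfl⟩

/-- There are two elements with disjoint axes. -/
theorem exists_disjoint (A : FTree N) (hA : A.InCV) (hN : 2 ≤ N) :
    ∃ a b : FreeGroup (Fin N), a ≠ 1 ∧ b ≠ 1 ∧ A.len a + A.len b < A.len (a * b) := by
  obtain ⟨x⟩ := A.isRTree.nonempty
  set ℓ := lenFn A x with hℓ
  obtain ⟨φ, hφ⟩ := nielsen ℓ (hyperbolic A hA.1 x) (proper A hA x)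
  set p : (Lt N → ℝ) × (Lt N × Lt N → ℝ) :=
    (fun a => ℓ.L (φ (lt a)), fun q => G ℓ (φ (lt q.1))⁻¹ (φ (lt q.2))) with hp
  have hform : ∀ l : List (Lt N), FreeGroup.IsReduced l → ℓ.L (φ (FreeGroup.mk l)) = Q p l :=
    formula_list ℓ φ hφ
  set i : Fin N := ⟨0, by omega⟩ with hi
  set j : Fin N := ⟨1, by omega⟩ with hj
  have hij : i ≠ j := by
    rw [hi, hj]
    simp
  have hlti : ∀ c : Lt N, lt c ≠ 1 := by
    intro c hc
    have : (lt c).toWord = [] := by rw [hc, FreeGroup.toWord_one]
    rw [lt, FreeGroup.toWord_mk, FreeGroup.reduce_singleton] at this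
    simp at this
  -- choose m
  have hinj : Function.Injective (fun m : ℕ => φ (FreeGroup.mk (Wd i j m))) := by
    intro m m' h
    have h1 := φ.injective h
    have h2 := congrArg FreeGroup.toWord h1
    rw [FreeGroup.toWord_mk, FreeGroup.toWord_mk, (Wd_reduced hij m).reduce_eq,
      (Wd_reduced hij m').reduce_eq] at h2
    have h3 := congrArg List.length h2
    rw [Wd_length, Wd_length] at h3
    omega
  obtain ⟨m, hm⟩ : ∃ m : ℕ, 2 * A.len (φ (lt (i, true))) + 2 * ℓ.L (φ (lt (i, true))) <
      ℓ.L (φ (FreeGroup.mk (Wd i j m))) := by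
    by_contra hc
    push Not at hc
    have hfin := proper A hA x (2 * A.len (φ (lt (i, true))) + 2 * ℓ.L (φ (lt (i, true))))
    have hsub : Set.range (fun m : ℕ => φ (FreeGroup.mk (Wd i j m))) ⊆
        {g : FreeGroup (Fin N) | dist x (g • x) ≤
          2 * A.len (φ (lt (i, true))) + 2 * ℓ.L (φ (lt (i, true)))} := by
      rintro _ ⟨m, rfl⟩
      exact hc m
    exact Set.infinite_range_of_injective hinj (hfin.subset hsub)
  set w : FreeGroup (Fin N) := FreeGroup.mk (Wd i j m) with hw
  have hww : ℓ.L (φ (w * w)) = 2 * ℓ.L (φ w) -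
      2 * G ℓ (φ (lt (j, false)))⁻¹ (φ (lt (i, true))) := by
    obtain ⟨l1, h1⟩ := Wd_last i j m
    obtain ⟨l2, h2⟩ := Wd_head i j m
    have e1 : w * w = FreeGroup.mk (Wd i j m ++ Wd i j m) := by rw [hw, FreeGroup.mul_mk]
    rw [e1, hform _ (Wd_reduced2 hij m), hw, hform _ (Wd_reduced hij m)]
    have e2 : Q p (Wd i j m ++ Wd i j m) = Q p (Wd i j m) + Q p (Wd i j m) -
        2 * p.2 ((j, false), (i, true)) := by
      conv_lhs => rw [h1]
      conv_lhs =>
        enter [2, 2]
        rw [← h1, h2]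
      rw [Q_append, ← h1, ← h2]
    rw [e2]
    ring
  have hwne : φ w ≠ 1 := by
    intro h1
    have := hm
    rw [h1, ℓ.one] at this
    have h2 := (len_pos A hA.1 (φ (lt (i, true))) (fun h => hlti _ ((map_eq_one_iff φ φ.injective).mp h))).le
    have h3 := L_nonneg ℓ (φ (lt (i, true)))
    linarith
  have hlen : A.len (φ w) = ℓ.L (φ w) - 2 * G ℓ (φ (lt (j, false)))⁻¹ (φ (lt (i, true))) := by
    rw [len_eq' A hA.1 x _ hwne, ← map_mul, ← hℓ, hww]
    ring
  have hGle : G ℓ (φ (lt (j, false)))⁻¹ (φ (lt (i, true))) ≤ ℓ.L (φ (lt (i, true))) := by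
    unfold G
    have h1 := tri ℓ (φ (lt (i, true))) ((φ (lt (j, false)))⁻¹⁻¹ * φ (lt (i, true)))⁻¹
    rw [ℓ.inv] at h1
    rw [show φ (lt (i, true)) * ((φ (lt (j, false)))⁻¹⁻¹ * φ (lt (i, true)))⁻¹ =
      (φ (lt (j, false)))⁻¹ by group] at h1
    linarith
  refine ⟨φ (lt (i, true)), φ (lt (j, true) ^ (m + 1) * lt (i, true) *
    (lt (j, true) ^ (m + 1))⁻¹), ?_, ?_, ?_⟩
  · intro h
    exact hlti _ ((map_eq_one_iff φ φ.injective).mp h)
  · intro h
    have h1 := (map_eq_one_iff φ φ.injective).mp h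
    rw [mul_inv_eq_one, mul_eq_left] at h1
    exact hlti _ h1
  · rw [← map_mul, ← Wd_mk, ← hw, hlen]
    have : A.len (φ (lt (j, true) ^ (m + 1) * lt (i, true) * (lt (j, true) ^ (m + 1))⁻¹)) =
        A.len (φ (lt (i, true))) := by
      rw [map_mul, map_mul, map_inv, len_conj]
    rw [this]
    linarith

end Pool.Agent.H67R3.FSR
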