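import Mathlib
import Pool.Agent.H67R3.FSR.Point
import Pool.Agent.H67R3.FSR.Assembly

set_option autoImplicit false

/-!
# Finite spectrally rigid sets of currents
-/

namespace Pool.Agent.H67R3.FSR

open Pool.Agent.H472R3
open scoped NNReal

variable {N : ℕ}

/-- Points of Outer space with the same translation length function are equal. -/
theorem same_of_len (hN : 2 ≤ N) {A B : FTree N} (hA : A.InCV) (hB : B.InCV)
    (h : A.len = B.len) : A.Same B := by
  obtain ⟨a, b, ha, hb, hab⟩ := exists_disjoint A hA hN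
  obtain ⟨x, hx⟩ := exists_good A hA.1 ha hb hab
  rw [h] at hab
  obtain ⟨y, hy⟩ := exists_good B hB.1 ha hb hab
  have h1 := hyperbolic A hA.1 x
  have h2 := hyperbolic B hB.1 y
  have h3 : ∀ g, g ≠ 1 → (lenFn A x).L (g * g) - (lenFn A x).L g =
      (lenFn B y).L (g * g) - (lenFn B y).L g := by
    intro g hg
    rw [← len_eq' A hA.1 x g hg, ← len_eq' B hB.1 y g hg, h]
  refine same_of_based (x := x) (y := y) hA.2.1 hB.2.1 fun w => ?_
  exact le_antisymm (based_le h1 h2 h3 ha hb hx hy w)
    (based_le h2 h1 (fun g hg => (h3 g hg).symm) ha hb hy hx w)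

/-- A finite spectrally rigid set of nonzero currents. -/
theorem exists_finite_rigid (N : ℕ) (hN : 2 ≤ N) :
    ∃ S : Finset (Current N), S.card ≤ 8 * N ^ 2 + 4 * N ∧ (∀ μ ∈ S, μ ≠ 0) ∧
      ∀ I : FTree N → Current N → ℝ, IsIntersectionForm I →
        ∀ A B : FTree N, A.InCV → B.InCV → (∀ μ ∈ S, I A μ = I B μ) → A.Same B := by
  classical
  obtain ⟨S, hS, h⟩ := exists_finite_len (N := N) (by omega)
  refine ⟨S.erase 0, (Finset.card_le_card (Finset.erase_subset _ _)).trans hS,
    fun μ hμ => Finset.ne_of_mem_erase hμ, ?_⟩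
  intro I hI A B hA hB hAB
  have hz : ∀ A : FTree N, A.InCV → I A 0 = 0 := by
    intro A hA
    have := hI.smul A hA 0 0
    have e0 : (0 : ℝ≥0) • (0 : Current N) = 0 := by
      apply Current.ext
      rw [Current.smul_meas, Current.zero_meas, smul_zero]
    rw [e0, NNReal.coe_zero, zero_mul] at this
    exact this
  apply same_of_len hN hA hB
  apply h I hI A B hA hB
  intro μ hμ
  by_cases h0 : μ = 0
  · subst h0
    rw [hz A hA, hz B hB]
  · exact hAB μ (Finset.mem_erase.mpr ⟨h0, hμ⟩)

end Pool.Agent.H67R3.FSR
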